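import Pool.Agent.H17Arc.Curve

set_option autoImplicit false

open MeasureTheory Set
open scoped ENNReal

namespace H17Arc

variable {E : Type*} [NormedAddCommGroup E] [InnerProductSpace ℝ E] [MeasurableSpace E]
  [BorelSpace E]

/-- From the tight frame identity for the arc-length measure to a windowed identity on a
subarc which is not met by the rest of the curve. -/
lemma bridge {L : ℝ} (hL : 0 < L) {γ : ℝ → E} (hγ : ContinuousOn γ (Icc 0 L)) {Λ : Set E}
    {A : ℝ}
    (hfr : ∀ f : E → ℂ,
      MemLp f 2 (ENNReal.ofReal (1 / L) • Measure.map γ (volume.restrict (Icc 0 L))) →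
      HasSum (fun l : Λ => ‖∫ x, f x * Complex.exp (-(2 * Real.pi * (inner ℝ (l : E) x : ℝ) : ℝ) *
        Complex.I) ∂(ENNReal.ofReal (1 / L) • Measure.map γ (volume.restrict (Icc 0 L)))‖ ^ 2)
        (A * ∫ x, ‖f x‖ ^ 2 ∂(ENNReal.ofReal (1 / L) • Measure.map γ (volume.restrict (Icc 0 L)))))
    {x y : ℝ} (hx : 0 ≤ x) (hxy : x ≤ y) (hy : y ≤ L)
    (hinj : ∀ t ∈ Icc x y, ∀ s ∈ Icc 0 L, γ s = γ t → s = t) (u : ℝ) (hu : 0 ≤ u) :
    ∑' l : Λ, ENNReal.ofReal (‖∫ t in x..y, (Real.exp (-(u * (t - x))) : ℂ) *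
        Complex.exp (-(2 * Real.pi * (inner ℝ (l : E) (γ t) : ℝ) : ℝ) * Complex.I)‖ ^ 2) =
      ENNReal.ofReal (A * L * ∫ t in x..y, Real.exp (-(2 * u * (t - x)))) := by
  set μ : Measure E := ENNReal.ofReal (1 / L) • Measure.map γ (volume.restrict (Icc 0 L)) with hμ
  have hsub : Icc x y ⊆ Icc 0 L := Icc_subset_Icc hx hy
  have hγm : AEMeasurable γ (volume.restrict (Icc 0 L)) :=
    hγ.aemeasurable measurableSet_Icc
  -- the parametrisation of the subarc as a measurable embedding
  set e : Icc x y → E := fun s => γ s with he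
  have hec : Continuous e := by
    have := hγ.mono hsub
    exact continuousOn_iff_continuous_domRestrict.mp this
  have hei : Function.Injective e := by
    intro s t hst
    exact Subtype.ext (hinj t t.2 s (hsub s.2) hst)
  have hemb : MeasurableEmbedding e := (hec.isClosedEmbedding hei).measurableEmbedding
  set g : Icc x y → ℂ := fun s => (Real.exp (-(u * ((s : ℝ) - x))) : ℂ) with hg
  have hgm : Measurable g := by
    rw [hg]
    fun_prop
  set f : E → ℂ := Function.extend e g (fun _ => 0) with hf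
  have hfm : Measurable f := hemb.measurable_extend hgm measurable_const
  have hf1 : ∀ t ∈ Icc x y, f (γ t) = (Real.exp (-(u * (t - x))) : ℂ) := by
    intro t ht
    have : f (e ⟨t, ht⟩) = g ⟨t, ht⟩ := hei.extend_apply g _ _
    exact this
  have hf2 : ∀ t ∈ Icc 0 L, t ∉ Icc x y → f (γ t) = 0 := by
    intro t ht htn
    rw [hf, Function.extend_apply']
    rintro ⟨s, hs⟩
    have := hinj s s.2 t ht hs.symm
    exact htn (this ▸ s.2)
  have hfb : ∀ p, ‖f p‖ ≤ 1 := by
    intro p
    by_cases hp : ∃ s, e s = p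
    · obtain ⟨s, rfl⟩ := hp
      rw [hf, hei.extend_apply, hg]
      simp only
      rw [Complex.norm_real, Real.norm_eq_abs, abs_of_pos (Real.exp_pos _), Real.exp_le_one_iff]
      have : 0 ≤ u * ((s : ℝ) - x) := mul_nonneg hu (by linarith [s.2.1])
      linarith
    · rw [hf, Function.extend_apply' _ _ _ hp]
      simp
  have hfin : IsFiniteMeasure (Measure.map γ (volume.restrict (Icc 0 L))) := by
    constructor
    rw [Measure.map_apply_of_aemeasurable hγm MeasurableSet.univ]
    exact measure_lt_top _ _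
  have hfinμ : IsFiniteMeasure μ := by
    constructor
    rw [hμ, Measure.smul_apply, smul_eq_mul]
    exact ENNReal.mul_lt_top ENNReal.ofReal_lt_top (measure_lt_top _ _)
  have hmem : MemLp f 2 μ := MemLp.of_bound hfm.aestronglyMeasurable 1
    (Filter.Eventually.of_forall hfb)
  have hsum := hfr f hmem
  -- integrals against μ
  have hint : ∀ G : E → ℂ, Measurable G → (∀ t ∈ Icc 0 L, t ∉ Icc x y → G (γ t) = 0) →
      ∫ p, G p ∂μ = (1 / L : ℝ) • ∫ t in x..y, G (γ t) := by
    intro G hG hG0
    rw [hμ, integral_smul_measure, integral_map hγm hG.aestronglyMeasurable,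
      ENNReal.toReal_ofReal (by positivity), intervalIntegral.integral_of_le hxy,
      ← integral_Icc_eq_integral_Ioc]
    congr 1
    exact (setIntegral_eq_of_subset_of_forall_sdiff_eq_zero measurableSet_Icc hsub
      (fun t ht => hG0 t ht.1 ht.2))
  have hintR : ∀ G : E → ℝ, Measurable G → (∀ t ∈ Icc 0 L, t ∉ Icc x y → G (γ t) = 0) →
      ∫ p, G p ∂μ = (1 / L : ℝ) • ∫ t in x..y, G (γ t) := by
    intro G hG hG0
    rw [hμ, integral_smul_measure, integral_map hγm hG.aestronglyMeasurable,
      ENNReal.toReal_ofReal (by positivity), intervalIntegral.integral_of_le hxy,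
      ← integral_Icc_eq_integral_Ioc]
    congr 1
    exact (setIntegral_eq_of_subset_of_forall_sdiff_eq_zero measurableSet_Icc hsub
      (fun t ht => hG0 t ht.1 ht.2))
  have h1 : ∀ l : Λ, ∫ p, f p * Complex.exp (-(2 * Real.pi * (inner ℝ (l : E) p : ℝ) : ℝ) *
      Complex.I) ∂μ = (1 / L : ℝ) • ∫ t in x..y, (Real.exp (-(u * (t - x))) : ℂ) *
        Complex.exp (-(2 * Real.pi * (inner ℝ (l : E) (γ t) : ℝ) : ℝ) * Complex.I) := by
    intro l
    rw [hint (fun p => f p * Complex.exp (-(2 * Real.pi * (inner ℝ (l : E) p : ℝ) : ℝ) *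
      Complex.I))]
    · congr 1
      apply intervalIntegral.integral_congr
      intro t ht
      rw [uIcc_of_le hxy] at ht
      simp only
      rw [hf1 t ht]
    · apply hfm.mul
      apply Continuous.measurable
      fun_prop
    · intro t ht htn
      rw [hf2 t ht htn, zero_mul]
  have h2 : ∫ p, ‖f p‖ ^ 2 ∂μ = (1 / L : ℝ) • ∫ t in x..y, Real.exp (-(2 * u * (t - x))) := by
    rw [hintR (fun p => ‖f p‖ ^ 2)]
    · congr 1
      apply intervalIntegral.integral_congr
      intro t ht
      rw [uIcc_of_le hxy] at ht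
      simp only
      rw [hf1 t ht, Complex.norm_real, Real.norm_eq_abs, abs_of_pos (Real.exp_pos _),
        ← Real.exp_nat_mul]
      congr 1
      push_cast
      ring
    · exact hfm.norm.pow_const 2
    · intro t ht htn
      rw [hf2 t ht htn, norm_zero]
      norm_num
  simp_rw [h1] at hsum
  rw [h2] at hsum
  have h3 : ∀ z : ℂ, ‖z‖ ^ 2 = L ^ 2 * ‖(1 / L : ℝ) • z‖ ^ 2 := by
    intro z
    rw [norm_smul, Real.norm_eq_abs, abs_of_pos (by positivity)]
    field_simp
  have hsum2 : HasSum (fun l : Λ => ‖∫ t in x..y, (Real.exp (-(u * (t - x))) : ℂ) *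
        Complex.exp (-(2 * Real.pi * (inner ℝ (l : E) (γ t) : ℝ) : ℝ) * Complex.I)‖ ^ 2)
      (A * L * ∫ t in x..y, Real.exp (-(2 * u * (t - x)))) := by
    have h4 := hsum.mul_left (L ^ 2)
    simp_rw [← h3] at h4
    have h5 : L ^ 2 * (A * (1 / L) • ∫ t in x..y, Real.exp (-(2 * u * (t - x)))) =
        A * L * ∫ t in x..y, Real.exp (-(2 * u * (t - x))) := by
      rw [smul_eq_mul]
      field_simp
    rw [h5] at h4
    exact h4
  rw [← ENNReal.ofReal_tsum_of_nonneg (fun l => by positivity) hsum2.summable, hsum2.tsum_eq]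

end H17Arc
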