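import Pool.Agent.H17Arc.Final

set_option autoImplicit false

open MeasureTheory Set
open scoped ENNReal

namespace H17Arc

lemma Hyp.mono {ι : Type*} {z : ℝ → ℂ} {l : ι → ℂ} {B a b a' b' : ℝ} (H : Hyp z l B a b)
    (ha : a ≤ a') (hb : b' ≤ b) : Hyp z l B a' b' := by
  intro x y u hx hxy hy hu
  exact H x y u (ha.trans hx) hxy (hy.trans hb) hu

lemma Hyp.congr {ι : Type*} {z z' : ℝ → ℂ} {l : ι → ℂ} {B a b : ℝ} (H : Hyp z l B a b)
    (h : ∀ t ∈ Icc a b, z t = z' t) : Hyp z' l B a b := by
  intro x y u hx hxy hy hu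
  rw [← H x y u hx hxy hy hu]
  congr 1
  ext i
  congr 3
  unfold W
  apply intervalIntegral.integral_congr
  intro t ht
  rw [uIcc_of_le hxy] at ht
  simp only [ker, phi]
  rw [h t ⟨hx.trans ht.1, ht.2.trans hy⟩]

lemma Hyp.conj {ι : Type*} {z : ℝ → ℂ} {l : ι → ℂ} {B a b : ℝ} (H : Hyp z l B a b) :
    Hyp (fun t => (starRingEnd ℂ) (z t)) (fun i => (starRingEnd ℂ) (l i)) B a b := by
  intro x y u hx hxy hy hu
  rw [← H x y u hx hxy hy hu]
  congr 1
  ext i
  congr 3
  unfold W
  apply intervalIntegral.integral_congr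
  intro t _
  simp only [ker, phi]
  congr 3
  simp

/-- An arc with positive curvature extends to global arc data. -/
lemma exists_arcData {z0 z1 z2 : ℝ → ℂ} {a b : ℝ}
    (h1 : ∀ t ∈ Ioo a b, HasDerivAt z0 (z1 t) t) (h2 : ∀ t ∈ Ioo a b, HasDerivAt z1 (z2 t) t)
    (h3 : ContinuousOn z2 (Ioo a b)) (hunit : ∀ t ∈ Ioo a b, ‖z1 t‖ = 1) {s : ℝ}
    (hs : s ∈ Ioo a b) (hpos : 0 < ((starRingEnd ℂ) (z1 s) * z2 s).im) :
    ∃ (κ θ : ℝ → ℝ) (z : ℝ → ℂ) (κ0 κ1 p q : ℝ), ArcData κ θ z κ0 κ1 ∧ a < p ∧ p < q ∧ q < b ∧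
      ∀ t ∈ Icc p q, z0 t = z t := by
  set k : ℝ → ℝ := fun t => ((starRingEnd ℂ) (z1 t) * z2 t).im with hk
  have hz1c : ContinuousOn z1 (Ioo a b) := fun t ht => (h2 t ht).continuousAt.continuousWithinAt
  have hkc : ContinuousOn k (Ioo a b) := by
    apply Complex.continuous_im.comp_continuousOn
    exact (Complex.continuous_conj.comp_continuousOn hz1c).mul h3
  -- choose the interval
  have hnhds : {t | k s / 2 < k t ∧ k t < 2 * k s} ∩ Ioo a b ∈ nhds s := by
    apply Filter.inter_mem _ (Ioo_mem_nhds hs.1 hs.2)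
    have hca : ContinuousAt k s := hkc.continuousAt (Ioo_mem_nhds hs.1 hs.2)
    have hps : 0 < k s := hpos
    exact hca.preimage_mem_nhds (Ioo_mem_nhds (by linarith) (by linarith))
  obtain ⟨r, hr, hball⟩ := Metric.mem_nhds_iff.mp hnhds
  set p := s - r / 2 with hp
  set q := s + r / 2 with hq
  have hpq : p < q := by rw [hp, hq]; linarith
  have hsub : ∀ t ∈ Icc p q, (k s / 2 < k t ∧ k t < 2 * k s) ∧ t ∈ Ioo a b := by
    intro t ht
    have : t ∈ Metric.ball s r := by
      rw [Metric.mem_ball, Real.dist_eq, abs_lt]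
      constructor <;> linarith [ht.1, ht.2]
    exact hball this
  have hp' := (hsub p ⟨le_refl _, hpq.le⟩).2
  have hq' := (hsub q ⟨hpq.le, le_refl _⟩).2
  have hkc' : ContinuousOn k (Icc p q) := hkc.mono fun t ht => (hsub t ht).2
  set κ : ℝ → ℝ := IccExtend hpq.le (fun t : Icc p q => k t) with hκ
  have hκc : Continuous κ := by
    rw [hκ]
    exact (continuousOn_iff_continuous_domRestrict.mp hkc').Icc_extend'
  have hκeq : ∀ t ∈ Icc p q, κ t = k t := by
    intro t ht
    rw [hκ, IccExtend_of_mem _ _ ht]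
  set θ : ℝ → ℝ := fun t => (z1 p).arg + ∫ r in p..t, κ r with hθ
  have hθd : ∀ t, HasDerivAt θ (κ t) t := by
    intro t
    have := (intervalIntegral.integral_hasDerivAt_right (hκc.intervalIntegrable p t)
      (hκc.stronglyMeasurableAtFilter _ _) hκc.continuousAt).const_add ((z1 p).arg)
    exact this
  have hθc : Continuous θ := continuous_iff_continuousAt.mpr fun t => (hθd t).continuousAt
  set z : ℝ → ℂ := fun t => z0 p + ∫ r in p..t, Complex.exp ((θ r : ℂ) * Complex.I) with hz
  have hec : Continuous fun r => Complex.exp ((θ r : ℂ) * Complex.I) := by fun_prop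
  have hzd : ∀ t, HasDerivAt z (Complex.exp ((θ t : ℂ) * Complex.I)) t := by
    intro t
    have := (intervalIntegral.integral_hasDerivAt_right (hec.intervalIntegrable p t)
      (hec.stronglyMeasurableAtFilter _ _) hec.continuousAt).const_add (z0 p)
    exact this
  have hκb : ∀ t, k s / 2 ≤ κ t ∧ κ t ≤ 2 * k s := by
    intro t
    have := (hsub (projIcc p q hpq.le t) (projIcc p q hpq.le t).2).1
    exact ⟨this.1.le, this.2.le⟩
  have hps : 0 < k s := hpos
  refine ⟨κ, θ, z, k s / 2, 2 * k s, p, q,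
    ⟨hκc, by linarith, fun t => (hκb t).1, fun t => (hκb t).2, hθd, hzd⟩, hp'.1, hpq, hq'.2, ?_⟩
  -- identification of the tangent
  have hz2 : ∀ t ∈ Ioo a b, z2 t = Complex.I * (k t : ℂ) * z1 t := by
    intro t ht
    have hn : ∀ r ∈ Ioo a b, (starRingEnd ℂ) (z1 r) * z1 r = 1 := by
      intro r hr
      rw [mul_comm, Complex.mul_conj, Complex.normSq_eq_norm_sq, hunit r hr]
      simp
    -- differentiate the identity conj z1 * z1 = 1
    have hd1 : HasDerivAt (fun r => (starRingEnd ℂ) (z1 r)) ((starRingEnd ℂ) (z2 t)) t := by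
      have := (Complex.conjCLE.toContinuousLinearMap.hasFDerivAt (x := z1 t)).comp_hasDerivAt t
        (h2 t ht)
      exact this
    have hd2 := hd1.mul (h2 t ht)
    have hd3 : HasDerivAt (fun r => (starRingEnd ℂ) (z1 r) * z1 r) 0 t := by
      have hev : (fun _ : ℝ => (1:ℂ)) =ᶠ[nhds t] fun r => (starRingEnd ℂ) (z1 r) * z1 r := by
        filter_upwards [Ioo_mem_nhds ht.1 ht.2] with r hr
        exact (hn r hr).symm
      exact (hasDerivAt_const t (1:ℂ)).congr_of_eventuallyEq hev.symm
    have he := hd2.unique hd3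
    have hre : ((starRingEnd ℂ) (z1 t) * z2 t).re = 0 := by
      have h4 := congrArg Complex.re he
      simp only [Complex.add_re, Complex.mul_re, Complex.conj_re, Complex.conj_im,
        Complex.zero_re] at h4 ⊢
      linarith
    have h5 : (starRingEnd ℂ) (z1 t) * z2 t = Complex.I * (k t : ℂ) := by
      apply Complex.ext
      · rw [hre]; simp
      · simp [hk]
    calc z2 t = ((starRingEnd ℂ) (z1 t) * z1 t) * z2 t := by rw [hn t ht, one_mul]
      _ = ((starRingEnd ℂ) (z1 t) * z2 t) * z1 t := by ring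
      _ = _ := by rw [h5]
  have hz1eq : ∀ t ∈ Icc p q, z1 t = Complex.exp ((θ t : ℂ) * Complex.I) := by
    have hconst : ∀ t ∈ Icc p q, z1 t * Complex.exp (-((θ t : ℂ) * Complex.I)) =
        z1 p * Complex.exp (-((θ p : ℂ) * Complex.I)) := by
      apply constant_of_has_deriv_right_zero
      · apply ContinuousOn.mul (hz1c.mono fun t ht => (hsub t ht).2)
        exact (by fun_prop : Continuous fun t => Complex.exp (-((θ t : ℂ) * Complex.I))).continuousOn
      · intro t ht
        have ht' : t ∈ Icc p q := ⟨ht.1, ht.2.le⟩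
        have hta := (hsub t ht').2
        have h4 : HasDerivAt (fun t => Complex.exp (-((θ t : ℂ) * Complex.I)))
            (Complex.exp (-((θ t : ℂ) * Complex.I)) * -((κ t : ℂ) * Complex.I)) t :=
          (((hθd t).ofReal_comp.mul_const Complex.I).neg).cexp
        have h5 := (h2 t hta).mul h4
        have h6 : z2 t * Complex.exp (-((θ t : ℂ) * Complex.I)) +
            z1 t * (Complex.exp (-((θ t : ℂ) * Complex.I)) * -((κ t : ℂ) * Complex.I)) = 0 := by
          rw [hz2 t hta, hκeq t ht']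
          ring
        rw [h6] at h5
        exact h5.hasDerivWithinAt
    intro t ht
    have h4 := hconst t ht
    have h5 : z1 p * Complex.exp (-((θ p : ℂ) * Complex.I)) = 1 := by
      have h6 : θ p = (z1 p).arg := by simp [hθ]
      have h7 : z1 p = Complex.exp (((z1 p).arg : ℂ) * Complex.I) := by
        have := Complex.norm_mul_exp_arg_mul_I (z1 p)
        rw [hunit p hp', Complex.ofReal_one, one_mul] at this
        exact this.symm
      rw [h6]
      calc z1 p * Complex.exp (-(((z1 p).arg : ℂ) * Complex.I)) =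
          Complex.exp (((z1 p).arg : ℂ) * Complex.I) *
            Complex.exp (-(((z1 p).arg : ℂ) * Complex.I)) := by rw [← h7]
        _ = 1 := by rw [← Complex.exp_add, add_neg_cancel, Complex.exp_zero]
    rw [h5] at h4
    calc z1 t = z1 t * Complex.exp (-((θ t : ℂ) * Complex.I)) *
          Complex.exp ((θ t : ℂ) * Complex.I) := by
          rw [mul_assoc, ← Complex.exp_add, neg_add_cancel, Complex.exp_zero, mul_one]
      _ = _ := by rw [h4, one_mul]
  have hconst : ∀ t ∈ Icc p q, z0 t - z t = z0 p - z p := by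
    apply constant_of_has_deriv_right_zero
    · apply ContinuousOn.sub
      · intro t ht
        exact (h1 t (hsub t ht).2).continuousAt.continuousWithinAt
      · intro t _
        exact (hzd t).continuousAt.continuousWithinAt
    · intro t ht
      have ht' : t ∈ Icc p q := ⟨ht.1, ht.2.le⟩
      have h5 := (h1 t (hsub t ht').2).sub (hzd t)
      rw [hz1eq t ht', sub_self] at h5
      exact h5.hasDerivWithinAt
  intro t ht
  have h4 := hconst t ht
  have h5 : z p = z0 p := by simp [hz]
  rw [h5, sub_self] at h4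
  exact sub_eq_zero.mp h4

/-- The local theorem: a curved planar arc does not carry the tight frame identity. -/
theorem local_false {ι : Type*} [Countable ι] {z0 z1 z2 : ℝ → ℂ} {a b : ℝ}
    (h1 : ∀ t ∈ Ioo a b, HasDerivAt z0 (z1 t) t) (h2 : ∀ t ∈ Ioo a b, HasDerivAt z1 (z2 t) t)
    (h3 : ContinuousOn z2 (Ioo a b)) (hunit : ∀ t ∈ Ioo a b, ‖z1 t‖ = 1) {s : ℝ}
    (hs : s ∈ Ioo a b) (hne : z2 s ≠ 0) {l : ι → ℂ} {B : ℝ} (hB : 0 < B)
    (H : Hyp z0 l B a b) : False := by
  have key : ∀ (z0 z1 z2 : ℝ → ℂ) (l : ι → ℂ),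
      (∀ t ∈ Ioo a b, HasDerivAt z0 (z1 t) t) → (∀ t ∈ Ioo a b, HasDerivAt z1 (z2 t) t) →
      ContinuousOn z2 (Ioo a b) → (∀ t ∈ Ioo a b, ‖z1 t‖ = 1) →
      0 < ((starRingEnd ℂ) (z1 s) * z2 s).im → Hyp z0 l B a b → False := by
    intro z0 z1 z2 l h1 h2 h3 hunit hpos H
    obtain ⟨κ, θ, z, κ0, κ1, p, q, A, hap, hpq, hqb, heq⟩ := exists_arcData h1 h2 h3 hunit hs hpos
    have hκ1 := A.κ1pos
    have hpi := Real.pi_pos
    set h : ℝ := min ((q - p) / 8) (min (1 / 8) (Real.pi / (24 * κ1))) with hh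
    have hhpos : 0 < h := by
      have : 0 < q - p := by linarith
      positivity
    have hh1 : h ≤ (q - p) / 8 := min_le_left _ _
    have hh2 : h ≤ 1 / 8 := (min_le_right _ _).trans (min_le_left _ _)
    have hh3 : h ≤ Real.pi / (24 * κ1) := (min_le_right _ _).trans (min_le_right _ _)
    have H1 : Hyp z l B p (p + 8 * h) := by
      apply ((H.mono hap.le hqb.le).congr heq).mono (le_refl _)
      linarith
    apply local_false_short A hB hhpos (by linarith) _ H1
    rw [le_div_iff₀ (by positivity)] at hh3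
    linarith
  have him : ((starRingEnd ℂ) (z1 s) * z2 s).im ≠ 0 := by
    intro h0
    -- real part vanishes as well
    have hn : ∀ r ∈ Ioo a b, (starRingEnd ℂ) (z1 r) * z1 r = 1 := by
      intro r hr
      rw [mul_comm, Complex.mul_conj, Complex.normSq_eq_norm_sq, hunit r hr]
      simp
    have hd1 : HasDerivAt (fun r => (starRingEnd ℂ) (z1 r)) ((starRingEnd ℂ) (z2 s)) s := by
      have := (Complex.conjCLE.toContinuousLinearMap.hasFDerivAt (x := z1 s)).comp_hasDerivAt s
        (h2 s hs)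
      exact this
    have hd2 := hd1.mul (h2 s hs)
    have hd3 : HasDerivAt (fun r => (starRingEnd ℂ) (z1 r) * z1 r) 0 s := by
      have hev : (fun _ : ℝ => (1:ℂ)) =ᶠ[nhds s] fun r => (starRingEnd ℂ) (z1 r) * z1 r := by
        filter_upwards [Ioo_mem_nhds hs.1 hs.2] with r hr
        exact (hn r hr).symm
      exact (hasDerivAt_const s (1:ℂ)).congr_of_eventuallyEq hev.symm
    have he := hd2.unique hd3
    have hre : ((starRingEnd ℂ) (z1 s) * z2 s).re = 0 := by
      have h4 := congrArg Complex.re he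
      simp only [Complex.add_re, Complex.mul_re, Complex.conj_re, Complex.conj_im,
        Complex.zero_re] at h4 ⊢
      linarith
    have h5 : (starRingEnd ℂ) (z1 s) * z2 s = 0 := Complex.ext hre h0
    apply hne
    calc z2 s = ((starRingEnd ℂ) (z1 s) * z1 s) * z2 s := by rw [hn s hs, one_mul]
      _ = ((starRingEnd ℂ) (z1 s) * z2 s) * z1 s := by ring
      _ = 0 := by rw [h5, zero_mul]
  rcases lt_or_gt_of_ne him with hneg | hpos
  · refine key (fun t => (starRingEnd ℂ) (z0 t)) (fun t => (starRingEnd ℂ) (z1 t))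
      (fun t => (starRingEnd ℂ) (z2 t)) (fun i => (starRingEnd ℂ) (l i)) ?_ ?_ ?_ ?_ ?_ H.conj
    · intro t ht
      exact (Complex.conjCLE.toContinuousLinearMap.hasFDerivAt (x := z0 t)).comp_hasDerivAt t
        (h1 t ht)
    · intro t ht
      exact (Complex.conjCLE.toContinuousLinearMap.hasFDerivAt (x := z1 t)).comp_hasDerivAt t
        (h2 t ht)
    · exact Complex.continuous_conj.comp_continuousOn h3
    · intro t ht
      rw [RCLike.norm_conj]
      exact hunit t ht
    · rw [← map_mul, Complex.conj_im]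
      linarith
  · exact key z0 z1 z2 l h1 h2 h3 hunit hpos H

end H17Arc
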