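import Pool.Agent.H17Arc.Phase

set_option autoImplicit false

open MeasureTheory Set
open scoped ENNReal

namespace H17Arc

/-- The tight frame identity tested on damped windows of the arc. -/
def Hyp {ι : Type*} (z : ℝ → ℂ) (l : ι → ℂ) (B a b : ℝ) : Prop :=
  ∀ x y u : ℝ, a ≤ x → x ≤ y → y ≤ b → 0 ≤ u →
    ∑' i, ENNReal.ofReal (‖W (phi z (l i)) u x y‖ ^ 2) =
      ENNReal.ofReal (B * ∫ t in x..y, Real.exp (-(2 * u * (t - x))))

variable {κ θ : ℝ → ℝ} {z : ℝ → ℂ} {κ0 κ1 : ℝ}

/-- the energy identity integrated over the damping -/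
lemma energy {ι : Type*} [Countable ι] (A : ArcData κ θ z κ0 κ1) {l : ι → ℂ} {B a b : ℝ}
    (hB : 0 < B) (H : Hyp z l B a b) {x h s0 S : ℝ} (hh : 0 < h) (hx : a ≤ x)
    (hxb : x + h ≤ b) (hs0 : 0 < s0) (hS : s0 ≤ S) :
    ∑' i, ENNReal.ofReal (∫ u in s0..S, ‖W (phi z (l i)) u x (x + h)‖ ^ 2) =
      ENNReal.ofReal (∫ u in s0..S, B * ((1 - Real.exp (-(2 * u * h))) / (2 * u))) := by
  have hc : ∀ i, Continuous fun u => ‖W (phi z (l i)) u x (x + h)‖ ^ 2 := fun i =>
    (continuous_W_u (A.phic (l i)) x (x + h)).norm.pow 2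
  have h1 : ∀ i, ENNReal.ofReal (∫ u in s0..S, ‖W (phi z (l i)) u x (x + h)‖ ^ 2) =
      ∫⁻ u in Ioc s0 S, ENNReal.ofReal (‖W (phi z (l i)) u x (x + h)‖ ^ 2) := by
    intro i
    rw [intervalIntegral.integral_of_le hS]
    apply ofReal_integral_eq_lintegral_ofReal
    · exact ((hc i).intervalIntegrable s0 S).1
    · exact Filter.Eventually.of_forall fun u => by positivity
  simp_rw [h1]
  rw [← lintegral_tsum (fun i => ((hc i).measurable.ennreal_ofReal).aemeasurable)]
  rw [intervalIntegral.integral_of_le hS]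
  have hint : IntegrableOn (fun u => B * ((1 - Real.exp (-(2 * u * h))) / (2 * u)))
      (Ioc s0 S) := by
    have hco : ContinuousOn (fun u => B * ((1 - Real.exp (-(2 * u * h))) / (2 * u)))
        (uIcc s0 S) := by
      rw [uIcc_of_le hS]
      apply ContinuousOn.mul continuousOn_const
      apply ContinuousOn.div (by fun_prop) (by fun_prop)
      intro u hu
      have : 0 < u := by linarith [hu.1]
      positivity
    exact hco.intervalIntegrable.1
  rw [ofReal_integral_eq_lintegral_ofReal hint]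
  · apply setLIntegral_congr_fun measurableSet_Ioc
    intro u hu
    have hu0 : 0 < u := by linarith [hu.1]
    have h2 := H x (x + h) u hx (by linarith) hxb hu0.le
    simp only
    rw [h2]
    congr 2
    have h3 := integral_exp_window (u := 2 * u) (x := x) (y := x + h) (by positivity)
    rw [h3]
    congr 3
    ring_nf
  · refine (ae_restrict_iff' measurableSet_Ioc).mpr (Filter.Eventually.of_forall ?_)
    intro u hu
    have hu0 : 0 < u := by linarith [hu.1]
    have h3 : Real.exp (-(2 * u * h)) ≤ 1 := by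
      rw [Real.exp_le_one_iff]
      have : 0 < 2 * u * h := by positivity
      linarith
    have h4 : 0 ≤ (1 - Real.exp (-(2 * u * h))) / (2 * u) :=
      div_nonneg (by linarith) (by positivity)
    show 0 ≤ B * ((1 - Real.exp (-(2 * u * h))) / (2 * u))
    positivity

/-- logarithmic growth of the energy -/
lemma energy_lower {B h s0 S : ℝ} (hB : 0 < B) (hh : 0 < h) (hs0 : 0 < s0) (hS : s0 ≤ S) :
    B * (1 - Real.exp (-(2 * s0 * h))) / 2 * (Real.log S - Real.log s0) ≤
      ∫ u in s0..S, B * ((1 - Real.exp (-(2 * u * h))) / (2 * u)) := by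
  have hSpos : 0 < S := by linarith
  have h1 : B * (1 - Real.exp (-(2 * s0 * h))) / 2 * (Real.log S - Real.log s0) =
      ∫ u in s0..S, B * (1 - Real.exp (-(2 * s0 * h))) / 2 * u⁻¹ := by
    rw [intervalIntegral.integral_const_mul, integral_inv_of_pos hs0 hSpos,
      Real.log_div hSpos.ne' hs0.ne']
  rw [h1]
  have hne : ∀ u ∈ uIcc s0 S, u ≠ 0 := by
    intro u hu
    rw [uIcc_of_le hS] at hu
    have : 0 < u := by linarith [hu.1]
    exact this.ne'
  apply intervalIntegral.integral_mono_on hS
  · apply ContinuousOn.intervalIntegrable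
    apply ContinuousOn.mul continuousOn_const
    exact continuousOn_inv₀.mono (fun u hu => hne u hu)
  · apply ContinuousOn.intervalIntegrable
    apply ContinuousOn.mul continuousOn_const
    apply ContinuousOn.div (by fun_prop) (by fun_prop)
    intro u hu
    have := hne u hu
    positivity
  · intro u hu
    have hu0 : 0 < u := by linarith [hu.1]
    have h2 : Real.exp (-(2 * u * h)) ≤ Real.exp (-(2 * s0 * h)) := by
      apply Real.exp_le_exp.mpr
      have : s0 * h ≤ u * h := mul_le_mul_of_nonneg_right hu.1 hh.le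
      linarith
    have h3 : B * (1 - Real.exp (-(2 * s0 * h))) / 2 * u⁻¹ =
        B * ((1 - Real.exp (-(2 * s0 * h))) / (2 * u)) := by
      field_simp
    rw [h3]
    gcongr

lemma re_exp_W {φ : ℝ → ℝ} (c x y : ℝ) (hφ : Continuous φ) :
    (Complex.exp ((c : ℂ) * Complex.I) * W φ 0 x y).re = ∫ t in x..y, Real.cos (φ t - c) := by
  unfold W
  rw [← intervalIntegral.integral_const_mul]
  have h := Complex.reCLM.intervalIntegral_comp_comm (a := x) (b := y) (μ := volume)
    (f := fun t => Complex.exp ((c : ℂ) * Complex.I) * ker φ 0 x t)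
    ((continuous_const.mul (continuous_ker hφ 0 x)).intervalIntegrable _ _)
  simp only [Complex.reCLM_apply] at h
  rw [← h]
  congr 1
  ext t
  unfold ker
  rw [← Complex.exp_add]
  have h2 : (c : ℂ) * Complex.I + (((-(0 * (t - x)) : ℝ) : ℂ) + ((-φ t : ℝ) : ℂ) * Complex.I)
      = ((-(φ t - c) : ℝ) : ℂ) * Complex.I := by
    push_cast; ring
  rw [h2, Complex.exp_ofReal_mul_I_re, Real.cos_neg]

/-- only finitely many small frequencies -/
lemma finite_small {ι : Type*} (A : ArcData κ θ z κ0 κ1) {l : ι → ℂ} {B a b : ℝ}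
    (hab : a < b) (H : Hyp z l B a b) {M0 : ℝ} (hM0 : 0 < M0) :
    {i | ‖l i‖ < M0}.Finite := by
  have hpi := Real.pi_pos
  set h : ℝ := min (b - a) (1 / (2 * Real.pi * M0)) with hh
  have hpos : 0 < h := lt_min (by linarith) (by positivity)
  have hh1 : h ≤ b - a := min_le_left _ _
  have hh2 : 2 * Real.pi * M0 * h ≤ 1 := by
    have := min_le_right (b - a) (1 / (2 * Real.pi * M0))
    rw [← hh, le_div_iff₀ (by positivity)] at this
    linarith
  have h1 := H a (a + h) 0 (le_refl _) (by linarith) (by linarith) (le_refl _)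
  have hne : ∑' i, ENNReal.ofReal (‖W (phi z (l i)) 0 a (a + h)‖ ^ 2) ≠ ⊤ := by
    rw [h1]; exact ENNReal.ofReal_ne_top
  have h2 := ENNReal.finite_const_le_of_tsum_ne_top hne
    (ε := ENNReal.ofReal ((h / 2) ^ 2)) (by
      rw [Ne, ENNReal.ofReal_eq_zero, not_le]; positivity)
  refine h2.subset ?_
  intro i hi
  simp only [mem_setOf_eq] at hi ⊢
  apply ENNReal.ofReal_le_ofReal
  have hdev : ∀ t ∈ Icc a (a + h), |phi z (l i) t - phi z (l i) a| ≤ 1 := by
    intro t ht
    have hb : ∀ r ∈ Icc a (a + h), vel θ (l i) r ≤ 2 * Real.pi * M0 := by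
      intro r _
      unfold vel
      have h3 := Real.cos_le_one (θ r - (l i).arg)
      calc 2 * Real.pi * ‖l i‖ * Real.cos (θ r - (l i).arg) ≤ 2 * Real.pi * ‖l i‖ * 1 := by
            gcongr
        _ ≤ 2 * Real.pi * M0 := by rw [mul_one]; gcongr
    have hb' : ∀ r ∈ Icc a (a + h), -(2 * Real.pi * M0) ≤ vel θ (l i) r := by
      intro r _
      unfold vel
      have h3 := Real.neg_one_le_cos (θ r - (l i).arg)
      have h4 : 2 * Real.pi * ‖l i‖ ≤ 2 * Real.pi * M0 := by gcongr
      have h5 : 0 ≤ 2 * Real.pi * ‖l i‖ := by positivity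
      nlinarith
    have h3 := v_upper (A.dphi (l i)) hb (s := a) (t := t) ⟨le_refl _, by linarith⟩ ht ht.1
    have h4 := v_lower (A.dphi (l i)) hb' (s := a) (t := t) ⟨le_refl _, by linarith⟩ ht ht.1
    have h5 : 2 * Real.pi * M0 * (t - a) ≤ 2 * Real.pi * M0 * h := by
      gcongr
      linarith [ht.2]
    rw [abs_le]
    constructor <;> linarith
  have h3 : h / 2 ≤ ‖W (phi z (l i)) 0 a (a + h)‖ := by
    have h4 := re_exp_W (φ := phi z (l i)) (phi z (l i) a) a (a + h) (A.phic (l i))
    have h5 := Complex.abs_re_le_norm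
      (Complex.exp ((phi z (l i) a : ℂ) * Complex.I) * W (phi z (l i)) 0 a (a + h))
    rw [norm_mul, Complex.norm_exp_ofReal_mul_I, one_mul, h4] at h5
    refine le_trans ?_ ((le_abs_self _).trans h5)
    have h6 : ∫ t in a..(a + h), (1 / 2 : ℝ) = h / 2 := by
      rw [intervalIntegral.integral_const, smul_eq_mul]; ring
    rw [← h6]
    have hc := A.phic (l i)
    apply intervalIntegral.integral_mono_on (by linarith) (by simp)
      ((by fun_prop : Continuous fun t =>
        Real.cos (phi z (l i) t - phi z (l i) a)).intervalIntegrable _ _)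
    intro t ht
    rw [← Real.cos_pi_div_three, ← Real.cos_abs (phi z (l i) t - phi z (l i) a)]
    have := Real.pi_gt_three
    apply Real.cos_le_cos_of_nonneg_of_le_pi (abs_nonneg _) (by linarith)
    have := hdev t ht
    linarith
  gcongr

/-- averaging over the base point -/
lemma exists_good_x {ι : Type*} [Countable ι] (m : ι → ℝ≥0∞) (τ : ι → ℝ) {a b p q σ ε : ℝ}
    (hap : a ≤ p) (hpq : p < q) (hqb : q ≤ b) (hlen : b - a ≤ 1) (hσ : 0 < σ)
    (hτ : ∀ i, τ i ∈ Icc a b) (hm : ∑' i, m i ≤ ENNReal.ofReal ε) :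
    ∃ x ∈ Icc p q, ∑' i, m i * ENNReal.ofReal (1 / (|x - τ i| + σ)) ≤
      ENNReal.ofReal (ε * (2 * Real.log ((1 + σ) / σ)) / (q - p)) := by
  have hlog : ∀ t0 ∈ Icc a b, ∫⁻ x in Icc p q, ENNReal.ofReal (1 / (|x - t0| + σ)) ≤
      ENNReal.ofReal (2 * Real.log ((1 + σ) / σ)) := by
    intro t0 ht0
    have hcont : Continuous fun x : ℝ => 1 / (|x - t0| + σ) := by
      apply Continuous.div continuous_const (by fun_prop)
      intro x
      positivity
    have hnn : ∀ x : ℝ, 0 ≤ 1 / (|x - t0| + σ) := fun x => by positivity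
    have h1 : ∫⁻ x in Icc p q, ENNReal.ofReal (1 / (|x - t0| + σ)) ≤
        ∫⁻ x in Icc (t0 - 1) (t0 + 1), ENNReal.ofReal (1 / (|x - t0| + σ)) := by
      apply lintegral_mono_set
      intro x hx
      exact ⟨by linarith [hx.1, ht0.2], by linarith [hx.2, ht0.1]⟩
    refine h1.trans ?_
    rw [← ofReal_integral_eq_lintegral_ofReal (hcont.continuousOn.integrableOn_Icc)
      (Filter.Eventually.of_forall hnn)]
    apply ENNReal.ofReal_le_ofReal
    rw [integral_Icc_eq_integral_Ioc, ← intervalIntegral.integral_of_le (by linarith),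
      ← intervalIntegral.integral_add_adjacent_intervals (b := t0)
        (hcont.intervalIntegrable _ _) (hcont.intervalIntegrable _ _)]
    have hR : ∫ x in t0..(t0 + 1), 1 / (|x - t0| + σ) = Real.log ((1 + σ) / σ) := by
      have hd : ∀ x ∈ uIcc t0 (t0 + 1), HasDerivAt (fun x => Real.log (x - t0 + σ))
          (1 / (|x - t0| + σ)) x := by
        intro x hx
        rw [uIcc_of_le (by linarith)] at hx
        have h0 : 0 ≤ x - t0 := by linarith [hx.1]
        have h2 := (((hasDerivAt_id x).sub_const t0).add_const σ).log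
          (by simp only [id]; positivity)
        rw [abs_of_nonneg h0]
        exact h2
      rw [intervalIntegral.integral_eq_sub_of_hasDerivAt hd (hcont.intervalIntegrable _ _),
        Real.log_div (by positivity) hσ.ne']
      congr 2 <;> ring
    have hL : ∫ x in (t0 - 1)..t0, 1 / (|x - t0| + σ) = Real.log ((1 + σ) / σ) := by
      have hd : ∀ x ∈ uIcc (t0 - 1) t0, HasDerivAt (fun x => -Real.log (t0 - x + σ))
          (1 / (|x - t0| + σ)) x := by
        intro x hx
        rw [uIcc_of_le (by linarith)] at hx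
        have h0 : 0 ≤ t0 - x := by linarith [hx.2]
        have h2 := ((((hasDerivAt_id x).const_sub t0).add_const σ).log
          (by simp only [id]; positivity)).neg
        rw [abs_of_nonpos (by linarith)]
        refine h2.congr_deriv ?_
        simp only [id]
        rw [neg_sub]
        ring
      rw [intervalIntegral.integral_eq_sub_of_hasDerivAt hd (hcont.intervalIntegrable _ _),
        Real.log_div (by positivity) hσ.ne']
      have e1 : t0 - (t0 - 1) + σ = 1 + σ := by ring
      have e2 : t0 - t0 + σ = σ := by ring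
      rw [e1, e2]
      ring
    rw [hR, hL]
    linarith
  have hmeas : ∀ i, Measurable fun x => m i * ENNReal.ofReal (1 / (|x - τ i| + σ)) := by
    intro i
    fun_prop
  have hvol : volume (Icc p q) ≠ 0 := by
    rw [Real.volume_Icc, Ne, ENNReal.ofReal_eq_zero, not_le]
    linarith
  obtain ⟨x, hx, hxle⟩ := exists_le_setLAverage (μ := volume) (s := Icc p q)
    (f := fun x => ∑' i, m i * ENNReal.ofReal (1 / (|x - τ i| + σ))) hvol
    (by rw [Real.volume_Icc]; exact ENNReal.ofReal_ne_top)
    (Measurable.ennreal_tsum hmeas).aemeasurable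
  refine ⟨x, hx, hxle.trans ?_⟩
  rw [setLAverage_eq, lintegral_tsum (fun i => (hmeas i).aemeasurable), Real.volume_Icc]
  have h2 : ∑' i, ∫⁻ x in Icc p q, m i * ENNReal.ofReal (1 / (|x - τ i| + σ)) ≤
      ENNReal.ofReal (ε * (2 * Real.log ((1 + σ) / σ))) := by
    have h3 : ∀ i, ∫⁻ x in Icc p q, m i * ENNReal.ofReal (1 / (|x - τ i| + σ)) ≤
        m i * ENNReal.ofReal (2 * Real.log ((1 + σ) / σ)) := by
      intro i
      rw [lintegral_const_mul _ (by fun_prop)]
      gcongr
      exact hlog _ (hτ i)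
    refine (ENNReal.tsum_le_tsum h3).trans ?_
    rw [ENNReal.tsum_mul_right]
    have h4 : 0 ≤ 2 * Real.log ((1 + σ) / σ) := by
      have : 1 ≤ (1 + σ) / σ := by
        rw [le_div_iff₀ hσ]; linarith
      have := Real.log_nonneg this
      linarith
    rw [ENNReal.ofReal_mul' h4]
    gcongr
  rw [ENNReal.ofReal_div_of_pos (by linarith)]
  gcongr

end H17Arc
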