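import Pool.Agent.H17Arc.Main

set_option autoImplicit false

open MeasureTheory Set
open scoped ENNReal

namespace H17Arc

variable {κ θ : ℝ → ℝ} {z : ℝ → ℂ} {κ0 κ1 : ℝ}

open Classical in
/-- The local theorem on a short arc. -/
theorem local_false_short {ι : Type*} [Countable ι] (A : ArcData κ θ z κ0 κ1) {l : ι → ℂ}
    {B a h : ℝ} (hB : 0 < B) (hh : 0 < h) (hlen : 8 * h ≤ 1)
    (hang : κ1 * (8 * h) ≤ Real.pi / 3) (H : Hyp z l B a (a + 8 * h)) : False := by
  have hpi := Real.pi_pos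
  have hκ0 := A.pos
  have hκ1 := A.κ1pos
  have hη : 0 < κ0 * h := by positivity
  have hη2 : κ0 * h ≤ Real.pi / 3 := by
    have := mul_le_mul_of_nonneg_right A.κ01 hh.le
    have h2 : 0 ≤ κ1 * h := mul_nonneg hκ1.le hh.le
    linarith
  set c : ℝ := Real.sin (κ0 * h) with hcdef
  have hc : 0 < c := Real.sin_pos_of_pos_of_lt_pi hη (by linarith)
  have hc1 : c ≤ 1 := Real.sin_le_one _
  set σ0 : ℝ := 1 + 2 * c * (1 - Real.cos (κ0 * h)) with hσ0
  have hcoslt : Real.cos (κ0 * h) < 1 := by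
    have := Real.cos_lt_cos_of_nonneg_of_le_pi (le_refl (0:ℝ)) (by linarith : κ0 * h ≤ Real.pi) hη
    rwa [Real.cos_zero] at this
  have hcosge : -1 ≤ Real.cos (κ0 * h) := Real.neg_one_le_cos _
  have hσ1 : 1 < σ0 := by
    rw [hσ0]
    have : 0 < 2 * c * (1 - Real.cos (κ0 * h)) := mul_pos (by positivity) (by linarith)
    linarith
  have hσ5 : σ0 ≤ 5 := by
    rw [hσ0]
    have h1 : c * (1 - Real.cos (κ0 * h)) ≤ 1 * 2 :=
      mul_le_mul hc1 (by linarith) (by linarith) (by norm_num)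
    linarith
  set ρ : ℝ := (σ0 - 1) / 32 with hρdef
  have hρpos : 0 < ρ := by rw [hρdef]; linarith
  have hρle : ρ ≤ 1 / 8 := by rw [hρdef]; linarith
  set s0 : ℝ := max 1 ((1 / (h * c) + κ1 / c ^ 2) / ρ) with hs0def
  have hs01 : 1 ≤ s0 := le_max_left _ _
  have hs0 : 0 < s0 := by linarith
  have hs0' : (1 / (h * c) + κ1 / c ^ 2) / ρ ≤ s0 := le_max_right _ _
  have hρu : ∀ u, s0 ≤ u → Real.exp (-(u * h)) / c + (κ1 / c) / (c * u) ≤ ρ := by
    intro u hu
    have hu0 : 0 < u := by linarith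
    have h1 : Real.exp (-(u * h)) ≤ 1 / (u * h) := by
      rw [Real.exp_neg, one_div]
      apply inv_anti₀ (by positivity)
      have := Real.add_one_le_exp (u * h)
      linarith
    have h2 : Real.exp (-(u * h)) / c + (κ1 / c) / (c * u) ≤
        (1 / (u * h)) / c + (κ1 / c) / (c * u) := by gcongr
    refine h2.trans ?_
    have h3 : (1 / (u * h)) / c + (κ1 / c) / (c * u) = (1 / (h * c) + κ1 / c ^ 2) / u := by
      field_simp
    rw [h3, div_le_iff₀ hu0]
    rw [div_le_iff₀ hρpos] at hs0'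
    nlinarith
  set M0 : ℝ := max 1 (1 / (Real.pi * κ1 * h ^ 2)) with hM0def
  have hM01 : 1 ≤ M0 := le_max_left _ _
  have hM0 : 0 < M0 := by linarith
  have hM0' : 1 / (Real.pi * κ1 * h ^ 2) ≤ M0 := le_max_right _ _
  set T0 : Finset ι := (finite_small A (by linarith : a < a + 8 * h) H hM0).toFinset with hT0
  set C5 : ℝ := s0 * (1 + s0 ^ 2 / (2 * Real.pi * M0 * c) ^ 2) / (1 - ρ) ^ 2 *
        (B * ((1 - Real.exp (-(2 * s0 * h))) / (2 * s0))) with hC5def
  have hexp1 : Real.exp (-(2 * s0 * h)) < 1 := by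
    rw [Real.exp_lt_one_iff]
    have : 0 < 2 * s0 * h := by positivity
    linarith
  have hρ' : 0 < 1 - ρ := by linarith
  have hC5 : 0 ≤ C5 := by
    have h1 : 0 ≤ (1 - Real.exp (-(2 * s0 * h))) / (2 * s0) :=
      div_nonneg (by linarith) (by positivity)
    positivity
  set C3 : ℝ := 2 * (48 / (Real.pi * κ0) + 2 * (6 / (Real.pi * κ0) + 2) ^ 2) with hC3
  have hC3pos : 0 < C3 := by positivity
  set B' : ℝ := B * (1 - Real.exp (-(2 * s0 * h))) / 2 with hB'def
  have hB' : 0 < B' := by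
    have : 0 < 1 - Real.exp (-(2 * s0 * h)) := by linarith
    positivity
  set δ1 : ℝ := (σ0 - 1) / (2 * σ0) with hδ1def
  have hδ1 : 0 < δ1 := div_pos (by linarith) (by linarith)
  set C8 : ℝ := C3 * 2 / h with hC8def
  have hC8 : 0 < C8 := by positivity
  set ε : ℝ := δ1 * B' / (2 * C8) with hεdef
  have hε : 0 < ε := by positivity
  -- tail of the stationary frequencies
  have hgsum := sum_P A hh hang H hM0'
  have htail := ENNReal.tendsto_tsum_compl_atTop_zero hgsum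
  have hev := htail.eventually (ge_mem_nhds (ENNReal.ofReal_pos.mpr hε))
  obtain ⟨T1, hT1⟩ := Filter.eventually_atTop.mp hev
  set T : Finset ι := T0 ∪ T1 with hTdef
  have hT2 := hT1 T Finset.subset_union_right
  have hT : ∀ i, ‖l i‖ < M0 → i ∈ T := by
    intro i hi
    rw [hTdef, Finset.mem_union]
    left
    rw [hT0, Set.Finite.mem_toFinset]
    exact hi
  have hm : ∑' i, (if i ∉ T ∧ IsP θ a h M0 (l i) then ENNReal.ofReal (1 / ‖l i‖) else 0) ≤
      ENNReal.ofReal ε := by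
    refine le_trans (le_of_eq ?_) hT2
    have e : ∀ i, (if i ∉ T ∧ IsP θ a h M0 (l i) then ENNReal.ofReal (1 / ‖l i‖) else 0) =
        Set.indicator {i | i ∉ T}
          (fun i => if IsP θ a h M0 (l i) then ENNReal.ofReal (1 / ‖l i‖) else 0) i := by
      intro i
      by_cases h1 : i ∈ T
      · simp [h1]
      · simp [h1]
    simp_rw [e]
    rw [← tsum_subtype]
    rfl
  -- choose S
  set R : ℝ := (T.card : ℝ) / s0 + δ1 * B' / 2 + (1 + ρ) ^ 2 / σ0 * C5 + δ1 * B' * Real.log s0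
    with hR
  set S : ℝ := max s0 (Real.exp ((2 * R + 1) / (δ1 * B'))) with hSdef
  have hS : s0 ≤ S := le_max_left _ _
  have hS2 : Real.exp ((2 * R + 1) / (δ1 * B')) ≤ S := le_max_right _ _
  have hSpos : 0 < S := by linarith
  have hS1 : 1 ≤ S := by linarith
  have hmain := main_ineq A hB hh hlen hang H hM0 hρpos.le (by linarith) hs0 hS hσ0
    hρu hC5 (fun x hx1 hx2 => sum_N A hh H hM0 hc hc1 (by linarith) hs0 (hρu s0 (le_refl _))
      hx1 hx2) T hT hε.le hm
  have hlow := energy_lower hB hh hs0 hS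
  set E : ℝ := ∫ u in s0..S, B * ((1 - Real.exp (-(2 * u * h))) / (2 * u)) with hE
  rw [← hC3] at hmain
  rw [← hB'def] at hlow
  -- ratio
  have hratio : (1 + ρ) ^ 2 / σ0 / (1 - ρ) ^ 2 ≤ 1 - δ1 := by
    rw [div_div, div_le_iff₀ (by positivity)]
    have e : (1 - δ1) * (σ0 * (1 - ρ) ^ 2) = (σ0 + 1) / 2 * (1 - ρ) ^ 2 := by
      rw [hδ1def]; field_simp; ring
    rw [e]
    have e2 : σ0 = 1 + 32 * ρ := by rw [hρdef]; ring
    rw [e2]
    nlinarith [mul_pos hρpos hρpos, mul_pos (mul_pos hρpos hρpos) hρpos]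
  have hEnn : 0 ≤ E := by
    have h1 : 0 ≤ Real.log S - Real.log s0 := by
      have := Real.log_le_log hs0 hS
      linarith
    exact le_trans (mul_nonneg hB'.le h1) hlow
  have h1 : (1 + ρ) ^ 2 / σ0 * (E / (1 - ρ) ^ 2 + C5) ≤ (1 - δ1) * E + (1 + ρ) ^ 2 / σ0 * C5 := by
    have : (1 + ρ) ^ 2 / σ0 * (E / (1 - ρ) ^ 2 + C5) =
        ((1 + ρ) ^ 2 / σ0 / (1 - ρ) ^ 2) * E + (1 + ρ) ^ 2 / σ0 * C5 := by ring
    rw [this]
    have := mul_le_mul_of_nonneg_right hratio hEnn
    linarith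
  have hlogS : Real.log ((1 + 1 / S) / (1 / S)) ≤ 1 + Real.log S := by
    have e : (1 + 1 / S) / (1 / S) = S + 1 := by field_simp
    rw [e]
    have h2 : S + 1 ≤ Real.exp 1 * S := by
      have := Real.add_one_le_exp (1:ℝ)
      nlinarith
    have h3 := Real.log_le_log (by linarith) h2
    rw [Real.log_mul (Real.exp_ne_zero 1) hSpos.ne', Real.log_exp] at h3
    exact h3
  have h2 : C3 * (ε * (2 * Real.log ((1 + 1 / S) / (1 / S))) / h) ≤
      δ1 * B' / 2 * (1 + Real.log S) := by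
    have e : C3 * (ε * (2 * Real.log ((1 + 1 / S) / (1 / S))) / h) =
        (ε * C8) * Real.log ((1 + 1 / S) / (1 / S)) := by
      rw [hC8def]; ring
    rw [e]
    have e2 : ε * C8 = δ1 * B' / 2 := by rw [hεdef]; field_simp
    rw [e2]
    exact mul_le_mul_of_nonneg_left hlogS (by positivity)
  have h3 : δ1 * (B' * (Real.log S - Real.log s0)) ≤ δ1 * E :=
    mul_le_mul_of_nonneg_left hlow hδ1.le
  have h4 : δ1 * B' / 2 * Real.log S ≤ R := by
    rw [hR]
    nlinarith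
  have h5 : (2 * R + 1) / (δ1 * B') ≤ Real.log S := by
    rw [Real.le_log_iff_exp_le hSpos]
    exact hS2
  rw [div_le_iff₀ (by positivity)] at h5
  nlinarith

end H17Arc
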