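import Pool.Agent.H17Arc.Osc2

set_option autoImplicit false

open MeasureTheory Set

namespace H17Arc

/-- One-sided Fresnel-type lower bound. -/
lemma fresnel {g v w : ℝ → ℝ} (hg : ∀ t, HasDerivAt g (v t) t)
    (hv : ∀ t, HasDerivAt v (w t) t) (hw : Continuous w) {t0 b A1 A2 δ : ℝ}
    (hg0 : g t0 = 0) (hv0 : v t0 = 0) (hA1 : 0 < A1)
    (hwb : ∀ t ∈ Icc t0 b, A1 ≤ w t ∧ w t ≤ A2) (hδ : 0 < δ) (hδb : t0 + δ ≤ b)
    (hδ1 : A2 * δ ^ 2 ≤ 2) :
    A1 ^ 3 / (2 * Real.pi ^ 2 * A2 ^ 2) * (δ ^ 3 / 8) ≤ ∫ t in t0..b, Real.sin (g t) := by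
  have hgc : Continuous g := continuous_iff_continuousAt.mpr fun t => (hg t).continuousAt
  have hvc : Continuous v := continuous_iff_continuousAt.mpr fun t => (hv t).continuousAt
  have ht0b : t0 ∈ Icc t0 b := ⟨le_refl _, by linarith⟩
  have hA2 : 0 < A2 := by have := hwb t0 ht0b; linarith [this.1, this.2]
  have hvl : ∀ t ∈ Icc t0 b, A1 * (t - t0) ≤ v t := by
    intro t ht
    have := v_lower hv (fun t ht => (hwb t ht).1) ht0b ht ht.1
    rw [hv0] at this; linarith
  have hvu : ∀ t ∈ Icc t0 b, v t ≤ A2 * (t - t0) := by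
    intro t ht
    have := v_upper hv (fun t ht => (hwb t ht).2) ht0b ht ht.1
    rw [hv0] at this; linarith
  have hcomp : ∀ A : ℝ, ∀ t, HasDerivAt (fun t => g t - A / 2 * (t - t0) ^ 2)
      (v t - A * (t - t0)) t := by
    intro A t
    have h1 := (((hasDerivAt_id t).sub_const t0).pow 2).const_mul (A / 2)
    refine ((hg t).sub h1).congr_deriv ?_
    simp
    ring
  have hgl : ∀ t ∈ Icc t0 b, A1 / 2 * (t - t0) ^ 2 ≤ g t := by
    intro t ht
    have h := v_lower (v := fun t => g t - A1 / 2 * (t - t0) ^ 2)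
      (w := fun t => v t - A1 * (t - t0)) (c := 0) (a := t0) (b := b) (hcomp A1)
      (fun t ht => by have := hvl t ht; linarith) ht0b ht ht.1
    simp only [hg0] at h
    nlinarith
  have hgu : ∀ t ∈ Icc t0 b, g t ≤ A2 / 2 * (t - t0) ^ 2 := by
    intro t ht
    have h := v_upper (v := fun t => g t - A2 / 2 * (t - t0) ^ 2)
      (w := fun t => v t - A2 * (t - t0)) (c := 0) (a := t0) (b := b) (hcomp A2)
      (fun t ht => by have := hvu t ht; linarith) ht0b ht ht.1
    simp only [hg0] at h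
    nlinarith
  set c3 : ℝ := A1 ^ 3 / (2 * Real.pi ^ 2 * A2 ^ 2) with hc3
  have hc3pos : 0 < c3 := by have := Real.pi_pos; positivity
  -- the identity on [s, b]
  have hid : ∀ s, t0 < s → s ≤ b → ∫ t in s..b, Real.sin (g t) =
      (1 - Real.cos (g b)) / v b - (1 - Real.cos (g s)) / v s +
        ∫ t in s..b, (1 - Real.cos (g t)) * w t / v t ^ 2 := by
    intro s hs hsb
    have hvne : ∀ t ∈ uIcc s b, v t ≠ 0 := by
      intro t ht
      rw [uIcc_of_le hsb] at ht
      have h1 := hvl t ⟨by linarith [ht.1], ht.2⟩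
      have h2 : 0 < A1 * (t - t0) := mul_pos hA1 (by linarith [ht.1])
      linarith
    have hd : ∀ t ∈ uIcc s b, HasDerivAt (fun t => (1 - Real.cos (g t)) / v t)
        (Real.sin (g t) - (1 - Real.cos (g t)) * w t / v t ^ 2) t := by
      intro t ht
      have h1 := ((hg t).cos.const_sub 1).div (hv t) (hvne t ht)
      refine h1.congr_deriv ?_
      have := hvne t ht
      field_simp
    have hci : IntervalIntegrable (fun t => (1 - Real.cos (g t)) * w t / v t ^ 2) volume s b := by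
      apply ContinuousOn.intervalIntegrable
      apply ContinuousOn.div (by fun_prop) (by fun_prop)
      intro t ht
      exact pow_ne_zero _ (hvne t ht)
    have hsi : IntervalIntegrable (fun t => Real.sin (g t)) volume s b :=
      (by fun_prop : Continuous fun t => Real.sin (g t)).intervalIntegrable _ _
    have h2 := intervalIntegral.integral_eq_sub_of_hasDerivAt hd (hsi.sub hci)
    rw [intervalIntegral.integral_sub hsi hci] at h2
    linarith
  -- lower bound for the last integral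
  have hlow : ∀ s, t0 < s → s ≤ t0 + δ / 2 →
      c3 * (δ ^ 3 / 8) ≤ ∫ t in s..b, (1 - Real.cos (g t)) * w t / v t ^ 2 := by
    intro s hs hs2
    have hnn : ∀ t ∈ Icc t0 b, 0 ≤ (1 - Real.cos (g t)) * w t / v t ^ 2 := by
      intro t ht
      have h1 := (hwb t ht).1
      have h2 := Real.cos_le_one (g t)
      apply div_nonneg (mul_nonneg (by linarith) (by linarith)) (sq_nonneg _)
    have hci : ∀ p q, t0 < p → p ≤ q → q ≤ b → IntervalIntegrable
        (fun t => (1 - Real.cos (g t)) * w t / v t ^ 2) volume p q := by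
      intro p q hp hpq hq
      apply ContinuousOn.intervalIntegrable
      apply ContinuousOn.div (by fun_prop) (by fun_prop)
      intro t ht
      rw [uIcc_of_le hpq] at ht
      have h1 := hvl t ⟨by linarith [ht.1], by linarith [ht.2]⟩
      have h2 : 0 < A1 * (t - t0) := mul_pos hA1 (by linarith [ht.1])
      have : v t ≠ 0 := by linarith
      positivity
    have e1 := intervalIntegral.integral_add_adjacent_intervals
      (hci s (t0 + δ / 2) hs hs2 (by linarith)) (hci (t0 + δ / 2) b (by linarith) (by linarith) le_rfl)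
    have e2 := intervalIntegral.integral_add_adjacent_intervals
      (hci (t0 + δ / 2) (t0 + δ) (by linarith) (by linarith) (by linarith))
      (hci (t0 + δ) b (by linarith) (by linarith) le_rfl)
    have n1 : 0 ≤ ∫ t in s..(t0 + δ / 2), (1 - Real.cos (g t)) * w t / v t ^ 2 :=
      intervalIntegral.integral_nonneg hs2 (fun t ht => hnn t ⟨by linarith [ht.1], by linarith [ht.2]⟩)
    have n2 : 0 ≤ ∫ t in (t0 + δ)..b, (1 - Real.cos (g t)) * w t / v t ^ 2 :=
      intervalIntegral.integral_nonneg hδb (fun t ht => hnn t ⟨by linarith [ht.1], by linarith [ht.2]⟩)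
    have n3 : c3 * (δ ^ 3 / 8) ≤
        ∫ t in (t0 + δ / 2)..(t0 + δ), (1 - Real.cos (g t)) * w t / v t ^ 2 := by
      have h1 : ∫ t in (t0 + δ / 2)..(t0 + δ), c3 * (δ / 2) ^ 2 = c3 * (δ ^ 3 / 8) := by
        rw [intervalIntegral.integral_const, smul_eq_mul]; ring
      rw [← h1]
      apply intervalIntegral.integral_mono_on (by linarith) (by simp)
        (hci (t0 + δ / 2) (t0 + δ) (by linarith) (by linarith) (by linarith))
      intro t ht
      have htb : t ∈ Icc t0 b := ⟨by linarith [ht.1], by linarith [ht.2]⟩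
      have hτ1 : δ / 2 ≤ t - t0 := by linarith [ht.1]
      have hτ2 : t - t0 ≤ δ := by linarith [ht.2]
      have hτ : 0 < t - t0 := by linarith
      have hg1 := hgl t htb
      have hg2 := hgu t htb
      have hv1 := hvl t htb
      have hv2 := hvu t htb
      have hw1 := (hwb t htb).1
      have hgn : 0 ≤ g t := le_trans (by positivity) hg1
      have hgle1 : g t ≤ 1 := by
        have : A2 / 2 * (t - t0) ^ 2 ≤ A2 / 2 * δ ^ 2 := by gcongr
        linarith
      have hpi := Real.pi_gt_three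
      have hcos : Real.cos (g t) ≤ 1 - 2 / Real.pi ^ 2 * g t ^ 2 := by
        apply Real.cos_le_one_sub_mul_cos_sq
        rw [abs_of_nonneg hgn]
        linarith
      have hvpos : 0 < v t := lt_of_lt_of_le (mul_pos hA1 hτ) hv1
      have k1 : A1 ^ 2 / (2 * Real.pi ^ 2) * (t - t0) ^ 4 ≤ 1 - Real.cos (g t) := by
        have k2 : (A1 / 2 * (t - t0) ^ 2) ^ 2 ≤ g t ^ 2 := by gcongr
        have k3 : 2 / Real.pi ^ 2 * (A1 / 2 * (t - t0) ^ 2) ^ 2 ≤ 2 / Real.pi ^ 2 * g t ^ 2 := by
          gcongr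
        have k4 : A1 ^ 2 / (2 * Real.pi ^ 2) * (t - t0) ^ 4 =
            2 / Real.pi ^ 2 * (A1 / 2 * (t - t0) ^ 2) ^ 2 := by
          have : Real.pi ≠ 0 := by positivity
          field_simp
          try ring
        linarith
      have k5 : A1 ^ 2 / (2 * Real.pi ^ 2) * (t - t0) ^ 4 * A1 ≤ (1 - Real.cos (g t)) * w t := by
        apply mul_le_mul k1 hw1 hA1.le
        linarith [Real.cos_le_one (g t)]
      have k6 : v t ^ 2 ≤ (A2 * (t - t0)) ^ 2 := by gcongr
      have k7 : c3 * (t - t0) ^ 2 = A1 ^ 2 / (2 * Real.pi ^ 2) * (t - t0) ^ 4 * A1 /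
          (A2 * (t - t0)) ^ 2 := by
        rw [hc3]; field_simp
      have k8 : c3 * (δ / 2) ^ 2 ≤ c3 * (t - t0) ^ 2 := by gcongr
      refine k8.trans ?_
      rw [k7]
      apply div_le_div₀ _ k5 (by positivity) k6
      apply mul_nonneg _ (hA1.le.trans hw1)
      linarith [Real.cos_le_one (g t)]
    linarith
  by_contra hcon
  push Not at hcon
  set gap := c3 * (δ ^ 3 / 8) - ∫ t in t0..b, Real.sin (g t) with hgap
  have hgappos : 0 < gap := by linarith
  set K : ℝ := A2 ^ 2 / (8 * A1) with hK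
  have hKpos : 0 < K := by positivity
  set τ : ℝ := min (δ / 2) (min 1 (gap / (2 * (1 + K)))) with hτ
  have hτpos : 0 < τ := by positivity
  have hτ1 : τ ≤ δ / 2 := min_le_left _ _
  have hτ2 : τ ≤ 1 := (min_le_right _ _).trans (min_le_left _ _)
  have hτ3 : τ ≤ gap / (2 * (1 + K)) := (min_le_right _ _).trans (min_le_right _ _)
  have hs : t0 < t0 + τ := by linarith
  have h1 := hid (t0 + τ) hs (by linarith)
  have h2 := hlow (t0 + τ) hs (by linarith)
  have hsi : ∀ p q, IntervalIntegrable (fun t => Real.sin (g t)) volume p q := fun p q =>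
    (by fun_prop : Continuous fun t => Real.sin (g t)).intervalIntegrable _ _
  have h3 := intervalIntegral.integral_add_adjacent_intervals (hsi t0 (t0 + τ)) (hsi (t0 + τ) b)
  have h4 : -τ ≤ ∫ t in t0..(t0 + τ), Real.sin (g t) := by
    have h5 := intervalIntegral.norm_integral_le_of_norm_le_const (a := t0) (b := t0 + τ)
      (f := fun t => Real.sin (g t)) (C := 1) (fun t _ => by
        rw [Real.norm_eq_abs]; exact Real.abs_sin_le_one _)
    rw [Real.norm_eq_abs] at h5
    have h6 := (abs_le.mp h5).1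
    rw [abs_of_nonneg (by linarith)] at h6
    linarith
  have hb' : b ∈ Icc t0 b := ⟨by linarith, le_refl _⟩
  have h5 : 0 ≤ (1 - Real.cos (g b)) / v b := by
    apply div_nonneg (by linarith [Real.cos_le_one (g b)])
    have := hvl b hb'
    have : 0 ≤ A1 * (b - t0) := mul_nonneg hA1.le (by linarith)
    linarith
  have hs' : t0 + τ ∈ Icc t0 b := ⟨by linarith, by linarith⟩
  have h6 : (1 - Real.cos (g (t0 + τ))) / v (t0 + τ) ≤ K * τ ^ 3 := by
    have hv1 := hvl _ hs'
    have hg1 := hgl _ hs'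
    have hg2 := hgu _ hs'
    have hsub : t0 + τ - t0 = τ := by ring
    rw [hsub] at hv1 hg1 hg2
    have hvpos : 0 < A1 * τ := by positivity
    have hgn : 0 ≤ g (t0 + τ) := le_trans (by positivity) hg1
    have hc := Real.one_sub_sq_div_two_le_cos (x := g (t0 + τ))
    have h7 : 1 - Real.cos (g (t0 + τ)) ≤ (A2 / 2 * τ ^ 2) ^ 2 / 2 := by
      have : g (t0 + τ) ^ 2 ≤ (A2 / 2 * τ ^ 2) ^ 2 := by gcongr
      linarith
    have h8 : K * τ ^ 3 = ((A2 / 2 * τ ^ 2) ^ 2 / 2) / (A1 * τ) := by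
      rw [hK]; field_simp; ring
    rw [h8]
    exact div_le_div₀ (by positivity) h7 hvpos hv1
  have h7 : K * τ ^ 3 ≤ K * τ := by
    apply mul_le_mul_of_nonneg_left _ hKpos.le
    nlinarith [sq_nonneg τ, mul_nonneg hτpos.le (sub_nonneg.mpr hτ2)]
  have h8 : (1 + K) * τ ≤ gap / 2 := by
    have := mul_le_mul_of_nonneg_left hτ3 (by positivity : 0 ≤ 1 + K)
    refine this.trans (le_of_eq ?_)
    field_simp
  linarith

lemma im_exp_W {φ : ℝ → ℝ} (c x y : ℝ) (hφ : Continuous φ) :
    (Complex.exp ((c : ℂ) * Complex.I) * W φ 0 x y).im = - ∫ t in x..y, Real.sin (φ t - c) := by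
  unfold W
  rw [← intervalIntegral.integral_const_mul]
  have h := Complex.imCLM.intervalIntegral_comp_comm (a := x) (b := y) (μ := volume)
    (f := fun t => Complex.exp ((c : ℂ) * Complex.I) * ker φ 0 x t)
    ((continuous_const.mul (continuous_ker hφ 0 x)).intervalIntegrable _ _)
  simp only [Complex.imCLM_apply] at h
  rw [← h, ← intervalIntegral.integral_neg]
  congr 1
  ext t
  unfold ker
  rw [← Complex.exp_add]
  have h2 : (c : ℂ) * Complex.I + (((-(0 * (t - x)) : ℝ) : ℂ) + ((-φ t : ℝ) : ℂ) * Complex.I)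
      = ((-(φ t - c) : ℝ) : ℂ) * Complex.I := by
    push_cast; ring
  rw [h2, Complex.exp_ofReal_mul_I_im, Real.sin_neg]

/-- Two-sided Fresnel-type lower bound for the undamped integral. -/
lemma norm_W_ge {φ v w : ℝ → ℝ} (hφ : ∀ t, HasDerivAt φ (v t) t)
    (hv : ∀ t, HasDerivAt v (w t) t) (hw : Continuous w) {t0 a b A1 A2 δ : ℝ}
    (hv0 : v t0 = 0) (hA1 : 0 < A1)
    (hwb : ∀ t ∈ Icc a b, A1 ≤ w t ∧ w t ≤ A2) (hδ : 0 < δ) (hδa : a + δ ≤ t0)
    (hδb : t0 + δ ≤ b) (hδ1 : A2 * δ ^ 2 ≤ 2) :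
    A1 ^ 3 / (2 * Real.pi ^ 2 * A2 ^ 2) * (δ ^ 3 / 8) ≤ ‖W φ 0 a b‖ := by
  have hφc : Continuous φ := continuous_iff_continuousAt.mpr fun t => (hφ t).continuousAt
  have h1 : A1 ^ 3 / (2 * Real.pi ^ 2 * A2 ^ 2) * (δ ^ 3 / 8) ≤
      ∫ t in t0..b, Real.sin (φ t - φ t0) := by
    apply fresnel (g := fun t => φ t - φ t0) (v := v) (w := w) (b := b)
      (fun t => (hφ t).sub_const _) hv hw (by simp) hv0 hA1
      (fun t ht => hwb t ⟨by linarith [ht.1], ht.2⟩) hδ hδb hδ1
  have h2 : A1 ^ 3 / (2 * Real.pi ^ 2 * A2 ^ 2) * (δ ^ 3 / 8) ≤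
      ∫ t in t0..(2 * t0 - a), Real.sin (φ (2 * t0 - t) - φ t0) := by
    apply fresnel (g := fun t => φ (2 * t0 - t) - φ t0) (v := fun t => -v (2 * t0 - t))
      (w := fun t => w (2 * t0 - t)) (b := 2 * t0 - a) _ _ _ _ _ hA1 _ hδ
      (by linarith) hδ1
    · intro t
      have h3 : HasDerivAt (fun t : ℝ => 2 * t0 - t) (-1) t := (hasDerivAt_id t).const_sub _
      have h4 := ((hφ (2 * t0 - t)).comp t h3).sub_const (φ t0)
      refine h4.congr_deriv ?_
      ring
    · intro t
      have h3 : HasDerivAt (fun t : ℝ => 2 * t0 - t) (-1) t := (hasDerivAt_id t).const_sub _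
      have h4 := ((hv (2 * t0 - t)).comp t h3).neg
      refine h4.congr_deriv ?_
      ring
    · fun_prop
    · have : 2 * t0 - t0 = t0 := by ring
      rw [this, sub_self]
    · have : 2 * t0 - t0 = t0 := by ring
      rw [this, hv0, neg_zero]
    · intro t ht
      exact hwb _ ⟨by linarith [ht.2], by linarith [ht.1]⟩
  have h3 : ∫ t in t0..(2 * t0 - a), Real.sin (φ (2 * t0 - t) - φ t0) =
      ∫ t in a..t0, Real.sin (φ t - φ t0) := by
    rw [intervalIntegral.integral_comp_sub_left (fun t => Real.sin (φ t - φ t0)) (2 * t0)]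
    congr 1 <;> ring
  rw [h3] at h2
  have hsi : ∀ p q, IntervalIntegrable (fun t => Real.sin (φ t - φ t0)) volume p q := fun p q =>
    (by fun_prop : Continuous fun t => Real.sin (φ t - φ t0)).intervalIntegrable _ _
  have h4 := intervalIntegral.integral_add_adjacent_intervals (hsi a t0) (hsi t0 b)
  have h5 := im_exp_W (φ := φ) (φ t0) a b hφc
  have h6 := Complex.abs_im_le_norm (Complex.exp ((φ t0 : ℂ) * Complex.I) * W φ 0 a b)
  rw [norm_mul, Complex.norm_exp_ofReal_mul_I, one_mul, h5, abs_neg] at h6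
  have h7 := le_abs_self (∫ t in a..b, Real.sin (φ t - φ t0))
  have h8 : 0 ≤ A1 ^ 3 / (2 * Real.pi ^ 2 * A2 ^ 2) * (δ ^ 3 / 8) := by
    have := Real.pi_pos
    positivity
  linarith

end H17Arc
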