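import Pool.Agent.H17Arc.Bridge

set_option autoImplicit false

open MeasureTheory Set
open scoped ENNReal

namespace H17Arc

section
variable {E : Type*} [NormedAddCommGroup E] [NormedSpace ℝ E]

/-- On an open subinterval of an interval of `C²` regularity the first two derivatives exist. -/
lemma c2_derivs {γ : ℝ → E} {x y : ℝ} (hC : ContDiffOn ℝ 2 γ (Icc x y)) :
    (∀ t ∈ Ioo x y, HasDerivAt γ (deriv γ t) t) ∧
      (∀ t ∈ Ioo x y, HasDerivAt (deriv γ) (deriv (deriv γ) t) t) ∧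
      ContinuousOn (deriv (deriv γ)) (Ioo x y) := by
  have hC' : ContDiffOn ℝ 2 γ (Ioo x y) := hC.mono Ioo_subset_Icc_self
  have h1 : ContDiffOn ℝ 1 (deriv γ) (Ioo x y) := by
    have := (contDiffOn_succ_iff_deriv_of_isOpen (n := 1) isOpen_Ioo).mp
      (by rw [one_add_one_eq_two]; exact hC')
    exact this.2.2
  have h2 : ContDiffOn ℝ 0 (deriv (deriv γ)) (Ioo x y) := by
    have := (contDiffOn_succ_iff_deriv_of_isOpen (n := 0) isOpen_Ioo).mp (by simpa using h1)
    exact this.2.2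
  refine ⟨?_, ?_, h2.continuousOn⟩
  · intro t ht
    have := (hC'.differentiableOn (by norm_num)).differentiableAt (Ioo_mem_nhds ht.1 ht.2)
    exact this.hasDerivAt
  · intro t ht
    have := (h1.differentiableOn (by norm_num)).differentiableAt (Ioo_mem_nhds ht.1 ht.2)
    exact this.hasDerivAt

lemma exists_deriv2_ne {γ : ℝ → E} {x y : ℝ} (hxy : x < y) (hC : ContDiffOn ℝ 2 γ (Icc x y))
    (hna : ¬ ∃ p v : E, ∀ t ∈ Icc x y, γ t = p + t • v) :
    ∃ s ∈ Ioo x y, deriv (deriv γ) s ≠ 0 := by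
  by_contra hcon
  push Not at hcon
  apply hna
  obtain ⟨h1, h2, h3⟩ := c2_derivs hC
  set m := (x + y) / 2 with hm
  have hmm : m ∈ Ioo x y := ⟨by rw [hm]; linarith, by rw [hm]; linarith⟩
  have hconst1 : ∀ t ∈ Ioo x y, deriv γ t = deriv γ m := by
    intro t ht
    exact isOpen_Ioo.is_const_of_deriv_eq_zero isPreconnected_Ioo
      (fun r hr => (h2 r hr).differentiableAt.differentiableWithinAt)
      (fun r hr => hcon r hr) ht hmm
  have hconst2 : ∀ t ∈ Ioo x y, γ t - t • deriv γ m = γ m - m • deriv γ m := by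
    intro t ht
    have hd : ∀ r ∈ Ioo x y, HasDerivAt (fun r => γ r - r • deriv γ m) 0 r := by
      intro r hr
      have h4 := (h1 r hr).sub ((hasDerivAt_id r).smul_const (deriv γ m))
      refine h4.congr_deriv ?_
      rw [hconst1 r hr]
      simp
    exact isOpen_Ioo.is_const_of_deriv_eq_zero isPreconnected_Ioo
      (fun r hr => (hd r hr).differentiableAt.differentiableWithinAt)
      (fun r hr => (hd r hr).deriv) ht hmm
  refine ⟨γ m - m • deriv γ m, deriv γ m, ?_⟩
  have heq : EqOn γ (fun t => γ m - m • deriv γ m + t • deriv γ m) (Ioo x y) := by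
    intro t ht
    have := hconst2 t ht
    simp only
    rw [← this]
    abel
  have hcl : EqOn γ (fun t => γ m - m • deriv γ m + t • deriv γ m) (Icc x y) := by
    apply heq.of_subset_closure hC.continuousOn
    · fun_prop
    · exact Ioo_subset_Icc_self
    · rw [closure_Ioo hxy.ne]
  exact fun t ht => hcl ht

end

section
variable {E : Type*} [NormedAddCommGroup E] [InnerProductSpace ℝ E]

/-- coordinates along two vectors -/
noncomputable def Qm (e1 e2 : E) : E →L[ℝ] ℂ :=
  (innerSL ℝ e1).smulRight (1 : ℂ) + (innerSL ℝ e2).smulRight Complex.I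

noncomputable def Jm (e1 e2 : E) : ℂ →L[ℝ] E :=
  Complex.reCLM.smulRight e1 + Complex.imCLM.smulRight e2

lemma Qm_apply (e1 e2 w : E) : Qm e1 e2 w = (inner ℝ e1 w : ℝ) + (inner ℝ e2 w : ℝ) * Complex.I := by
  simp [Qm]

lemma Jm_apply (e1 e2 : E) (z : ℂ) : Jm e1 e2 z = z.re • e1 + z.im • e2 := by
  simp [Jm]

lemma norm_Jm {e1 e2 : E} (h1 : ‖e1‖ = 1) (h2 : ‖e2‖ = 1) (h12 : inner ℝ e1 e2 = 0) (z : ℂ) :
    ‖Jm e1 e2 z‖ = ‖z‖ := by
  have h : ‖Jm e1 e2 z‖ ^ 2 = ‖z‖ ^ 2 := by
    rw [Jm_apply, norm_add_sq_real, norm_smul, norm_smul, inner_smul_left, inner_smul_right, h12,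
      h1, h2, ← Complex.normSq_eq_norm_sq, Complex.normSq_apply]
    simp only [mul_one, Real.norm_eq_abs, sq_abs, mul_zero, add_zero]
    ring
  exact (sq_eq_sq₀ (norm_nonneg _) (norm_nonneg _)).mp h

lemma inner_Jm (e1 e2 l : E) (z : ℂ) : inner ℝ l (Jm e1 e2 z) =
    ((starRingEnd ℂ) (Qm e1 e2 l) * z).re := by
  rw [Jm_apply, Qm_apply, inner_add_right, inner_smul_right, inner_smul_right,
    real_inner_comm e1 l, real_inner_comm e2 l]
  simp
  ring

end

end H17Arc
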