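import Pool.Agent.H17Arc.Energy

set_option autoImplicit false

open MeasureTheory Set
open scoped ENNReal

namespace H17Arc

variable {κ θ : ℝ → ℝ} {z : ℝ → ℂ} {κ0 κ1 : ℝ}

/-- large frequency with a stationary point in the inner interval -/
def IsP (θ : ℝ → ℝ) (a h M0 : ℝ) (l : ℂ) : Prop :=
  M0 ≤ ‖l‖ ∧ ∃ t0 ∈ Icc (a + h) (a + 7 * h), Real.cos (θ t0 - l.arg) = 0

/-- large frequency without stationary points, quantitatively -/
def IsN (θ : ℝ → ℝ) (a h M0 c : ℝ) (l : ℂ) : Prop :=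
  M0 ≤ ‖l‖ ∧ ∀ t ∈ Icc (a + 2 * h) (a + 6 * h), c ≤ |Real.cos (θ t - l.arg)|

open Classical in
/-- summability of `1 / ‖l‖` over the stationary frequencies -/
lemma sum_P {ι : Type*} (A : ArcData κ θ z κ0 κ1) {l : ι → ℂ} {B a h M0 : ℝ}
    (hh : 0 < h) (hang : κ1 * (8 * h) ≤ Real.pi / 3) (H : Hyp z l B a (a + 8 * h))
    (hM0 : 1 / (Real.pi * κ1 * h ^ 2) ≤ M0) :
    ∑' i, (if IsP θ a h M0 (l i) then ENNReal.ofReal (1 / ‖l i‖) else 0) ≠ ⊤ := by
  have hpi := Real.pi_pos
  have hκ0 := A.pos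
  have hκ1 := A.κ1pos
  set C4 : ℝ := (Real.pi * κ0) ^ 6 / (32 * Real.pi ^ 4 * (2 * Real.pi * κ1) ^ 7) with hC4
  have hC4pos : 0 < C4 := by positivity
  have h1 := H a (a + 8 * h) 0 (le_refl _) (by linarith) (le_refl _) (le_refl _)
  have h2 : ∀ i, (if IsP θ a h M0 (l i) then ENNReal.ofReal (1 / ‖l i‖) else 0) ≤
      ENNReal.ofReal (1 / C4) * ENNReal.ofReal (‖W (phi z (l i)) 0 a (a + 8 * h)‖ ^ 2) := by
    intro i
    split_ifs with hP
    · obtain ⟨hM, t0, ht0, hc⟩ := hP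
      have h3 := A.stat_lower (a := a) (b := a + 8 * h) (t0 := t0) hh (l := l i)
        (by rw [add_sub_cancel_left]; exact hang) (hM0.trans hM) ht0.1 (by linarith [ht0.2]) hc
      rw [← hC4] at h3
      rw [← ENNReal.ofReal_mul (by positivity)]
      apply ENNReal.ofReal_le_ofReal
      calc 1 / ‖l i‖ = 1 / C4 * (C4 / ‖l i‖) := by field_simp
        _ ≤ _ := by gcongr
    · exact zero_le
  refine ne_top_of_le_ne_top ?_ (ENNReal.tsum_le_tsum h2)
  rw [ENNReal.tsum_mul_left, h1]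
  exact ENNReal.mul_ne_top ENNReal.ofReal_ne_top ENNReal.ofReal_ne_top

lemma window_int (x h u : ℝ) (hu : 0 < u) : ∫ t in x..(x + h), Real.exp (-(2 * u * (t - x))) =
    (1 - Real.exp (-(2 * u * h))) / (2 * u) := by
  rw [integral_exp_window (u := 2 * u) (by positivity)]
  congr 3
  ring_nf

open Classical in
/-- summability of `1 / p^2` over the non-stationary frequencies -/
lemma sum_N {ι : Type*} (A : ArcData κ θ z κ0 κ1) {l : ι → ℂ} {B a h M0 c ρ s0 x : ℝ}
    (hh : 0 < h) (H : Hyp z l B a (a + 8 * h)) (hM0 : 0 < M0) (hc : 0 < c) (hc1 : c ≤ 1)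
    (hρ1 : ρ < 1) (hs0 : 0 < s0)
    (hρ : Real.exp (-(s0 * h)) / c + (κ1 / c) / (c * s0) ≤ ρ)
    (hx1 : a + 2 * h ≤ x) (hx2 : x ≤ a + 5 * h) :
    ∑' i, (if IsN θ a h M0 c (l i) then ENNReal.ofReal (s0 / |vel θ (l i) x| ^ 2) else 0) ≤
      ENNReal.ofReal (s0 * (1 + s0 ^ 2 / (2 * Real.pi * M0 * c) ^ 2) / (1 - ρ) ^ 2 *
        (B * ((1 - Real.exp (-(2 * s0 * h))) / (2 * s0)))) := by
  have hpi := Real.pi_pos
  have h1 := H x (x + h) s0 (by linarith) (by linarith) (by linarith) hs0.le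
  rw [window_int x h s0 hs0] at h1
  have hρ' : 0 < 1 - ρ := by linarith
  set Q : ℝ := s0 * (1 + s0 ^ 2 / (2 * Real.pi * M0 * c) ^ 2) / (1 - ρ) ^ 2 with hQ
  have hQpos : 0 < Q := by positivity
  rw [ENNReal.ofReal_mul hQpos.le, ← h1, ← ENNReal.tsum_mul_left]
  apply ENNReal.tsum_le_tsum
  intro i
  split_ifs with hN
  · obtain ⟨hM, hcos⟩ := hN
    have hlpos : 0 < ‖l i‖ := lt_of_lt_of_le hM0 hM
    have h2 := (A.non_bounds (p := a + 2 * h) (q := a + 6 * h) hc hc1 hlpos hcos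
      (x := x) (y := x + h) (u := s0) (ρ := ρ) (by linarith) hx1 (by linarith) hs0 hρ1.le
      (by rw [add_sub_cancel_left]; exact hρ)).1
    rw [← ENNReal.ofReal_mul hQpos.le]
    apply ENNReal.ofReal_le_ofReal
    set p : ℝ := |vel θ (l i) x| with hp
    have hpge : 2 * Real.pi * M0 * c ≤ p := by
      rw [hp]
      unfold vel
      rw [abs_mul, abs_of_pos (by positivity : 0 < 2 * Real.pi * ‖l i‖)]
      have h3 := hcos x ⟨hx1, by linarith⟩
      gcongr
    have hp0 : 0 < 2 * Real.pi * M0 * c := by positivity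
    have hppos : 0 < p := lt_of_lt_of_le hp0 hpge
    refine le_trans ?_ (mul_le_mul_of_nonneg_left h2 hQpos.le)
    rw [hQ]
    have h4 : s0 * (1 + s0 ^ 2 / (2 * Real.pi * M0 * c) ^ 2) / (1 - ρ) ^ 2 *
        ((1 - ρ) ^ 2 * (1 / (s0 ^ 2 + p ^ 2))) =
        s0 * ((1 + s0 ^ 2 / (2 * Real.pi * M0 * c) ^ 2) / (s0 ^ 2 + p ^ 2)) := by
      field_simp
    rw [h4, div_eq_mul_one_div s0]
    apply mul_le_mul_of_nonneg_left _ hs0.le
    rw [div_le_div_iff₀ (by positivity) (by positivity), one_mul]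
    have h5 : s0 ^ 2 / p ^ 2 ≤ s0 ^ 2 / (2 * Real.pi * M0 * c) ^ 2 := by gcongr
    have h6 : s0 ^ 2 + p ^ 2 = (1 + s0 ^ 2 / p ^ 2) * p ^ 2 := by field_simp; ring
    rw [h6]
    gcongr
  · exact zero_le

open Classical in
/-- the truncated kernel sum over non-stationary frequencies is controlled by the energy -/
lemma sum_kf {ι : Type*} [Countable ι] (A : ArcData κ θ z κ0 κ1) {l : ι → ℂ}
    {B a h M0 c ρ s0 S x C5 : ℝ} (hB : 0 < B)
    (hh : 0 < h) (H : Hyp z l B a (a + 8 * h)) (hM0 : 0 < M0) (hc : 0 < c) (hc1 : c ≤ 1)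
    (hρ0 : 0 ≤ ρ) (hρ1 : ρ < 1) (hs0 : 0 < s0) (hS : s0 ≤ S)
    (hρ : ∀ u, s0 ≤ u → Real.exp (-(u * h)) / c + (κ1 / c) / (c * u) ≤ ρ)
    (hx1 : a + 2 * h ≤ x) (hx2 : x ≤ a + 5 * h) (hC5 : 0 ≤ C5)
    (hsumN : ∑' i, (if IsN θ a h M0 c (l i) then
      ENNReal.ofReal (s0 / |vel θ (l i) x| ^ 2) else 0) ≤ ENNReal.ofReal C5) :
    ∑' i, (if IsN θ a h M0 c (l i) then ENNReal.ofReal (kf S |vel θ (l i) x|) else 0) ≤
      ENNReal.ofReal ((∫ u in s0..S, B * ((1 - Real.exp (-(2 * u * h))) / (2 * u))) /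
        (1 - ρ) ^ 2 + C5) := by
  have hpi := Real.pi_pos
  have hSpos : 0 < S := by linarith
  have hρ' : 0 < 1 - ρ := by linarith
  have hE := energy A hB H hh (x := x) (s0 := s0) (S := S) (by linarith) (by linarith) hs0 hS
  set E : ℝ := ∫ u in s0..S, B * ((1 - Real.exp (-(2 * u * h))) / (2 * u)) with hEdef
  have hEnn : 0 ≤ E := by
    apply intervalIntegral.integral_nonneg hS
    intro u hu
    have hu0 : 0 < u := by linarith [hu.1]
    have h3 : Real.exp (-(2 * u * h)) ≤ 1 := by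
      rw [Real.exp_le_one_iff]
      have : 0 < 2 * u * h := by positivity
      linarith
    have h4 : 0 ≤ (1 - Real.exp (-(2 * u * h))) / (2 * u) :=
      div_nonneg (by linarith) (by positivity)
    positivity
  have h2 : ∀ i, (if IsN θ a h M0 c (l i) then ENNReal.ofReal (kf S |vel θ (l i) x|) else 0) ≤
      ENNReal.ofReal (1 / (1 - ρ) ^ 2) *
        ENNReal.ofReal (∫ u in s0..S, ‖W (phi z (l i)) u x (x + h)‖ ^ 2) +
      (if IsN θ a h M0 c (l i) then ENNReal.ofReal (s0 / |vel θ (l i) x| ^ 2) else 0) := by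
    intro i
    split_ifs with hN
    · obtain ⟨hM, hcos⟩ := hN
      have hlpos : 0 < ‖l i‖ := lt_of_lt_of_le hM0 hM
      set p : ℝ := |vel θ (l i) x| with hp
      have hppos : 0 < p := by
        rw [hp]
        unfold vel
        rw [abs_mul, abs_of_pos (by positivity : 0 < 2 * Real.pi * ‖l i‖)]
        have h3 := hcos x ⟨hx1, by linarith⟩
        have : 0 < |Real.cos (θ x - (l i).arg)| := lt_of_lt_of_le hc h3
        positivity
      rw [← ENNReal.ofReal_mul (by positivity), ← ENNReal.ofReal_add]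
      · apply ENNReal.ofReal_le_ofReal
        have h3 := integral_kf (s0 := s0) (S := S) hppos
        have h4 := kf_le hs0.le hppos
        have hWc : Continuous fun u => ‖W (phi z (l i)) u x (x + h)‖ ^ 2 :=
          (continuous_W_u (A.phic (l i)) x (x + h)).norm.pow 2
        have hic : Continuous fun u : ℝ => 1 / (u ^ 2 + p ^ 2) := by
          apply Continuous.div continuous_const (by fun_prop)
          intro u
          positivity
        have h5 : ∫ u in s0..S, (1 - ρ) ^ 2 * (1 / (u ^ 2 + p ^ 2)) ≤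
            ∫ u in s0..S, ‖W (phi z (l i)) u x (x + h)‖ ^ 2 := by
          apply intervalIntegral.integral_mono_on hS
            ((continuous_const.mul hic).intervalIntegrable _ _) (hWc.intervalIntegrable _ _)
          intro u hu
          exact (A.non_bounds (p := a + 2 * h) (q := a + 6 * h) hc hc1 hlpos hcos
            (x := x) (y := x + h) (u := u) (ρ := ρ) (by linarith) hx1 (by linarith)
            (by linarith [hu.1]) hρ1.le
            (by rw [add_sub_cancel_left]; exact hρ u hu.1)).1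
        rw [intervalIntegral.integral_const_mul, h3] at h5
        have h6 : kf S p - kf s0 p ≤ 1 / (1 - ρ) ^ 2 *
            ∫ u in s0..S, ‖W (phi z (l i)) u x (x + h)‖ ^ 2 := by
          rw [div_mul_eq_mul_div, one_mul, le_div_iff₀ (by positivity), mul_comm]
          exact h5
        linarith
      · apply mul_nonneg (by positivity)
        apply intervalIntegral.integral_nonneg hS
        intro u _
        positivity
      · positivity
    · exact zero_le
  refine (ENNReal.tsum_le_tsum h2).trans ?_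
  rw [ENNReal.tsum_add, ENNReal.tsum_mul_left, hE, ENNReal.ofReal_add (by positivity) hC5,
    ← ENNReal.ofReal_mul (by positivity)]
  have h7 : 1 / (1 - ρ) ^ 2 * E = E / (1 - ρ) ^ 2 := by ring
  rw [h7]
  gcongr

end H17Arc
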