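import Pool.Agent.H17Arc.Local

set_option autoImplicit false

open MeasureTheory Set
open scoped ENNReal

namespace H17Arc

variable {κ θ : ℝ → ℝ} {z : ℝ → ℂ} {κ0 κ1 : ℝ}

open Classical in
/-- the main inequality at a good base point -/
lemma main_ineq {ι : Type*} [Countable ι] (A : ArcData κ θ z κ0 κ1) {l : ι → ℂ}
    {B a h M0 ρ s0 S C5 ε σ0 : ℝ} (hB : 0 < B)
    (hh : 0 < h) (hlen : 8 * h ≤ 1) (hang : κ1 * (8 * h) ≤ Real.pi / 3)
    (H : Hyp z l B a (a + 8 * h)) (hM0 : 0 < M0)
    (hρ0 : 0 ≤ ρ) (hρ1 : ρ < 1) (hs0 : 0 < s0) (hS : s0 ≤ S)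
    (hσ0 : σ0 = 1 + 2 * Real.sin (κ0 * h) * (1 - Real.cos (κ0 * h)))
    (hρ : ∀ u, s0 ≤ u → Real.exp (-(u * h)) / Real.sin (κ0 * h) +
      (κ1 / Real.sin (κ0 * h)) / (Real.sin (κ0 * h) * u) ≤ ρ)
    (hC5 : 0 ≤ C5)
    (hsumN : ∀ x, a + 2 * h ≤ x → x ≤ a + 5 * h →
      ∑' i, (if IsN θ a h M0 (Real.sin (κ0 * h)) (l i) then
      ENNReal.ofReal (s0 / |vel θ (l i) x| ^ 2) else 0) ≤ ENNReal.ofReal C5)
    (T : Finset ι) (hT : ∀ i, ‖l i‖ < M0 → i ∈ T) (hε : 0 ≤ ε)
    (hm : ∑' i, (if i ∉ T ∧ IsP θ a h M0 (l i) then ENNReal.ofReal (1 / ‖l i‖) else 0) ≤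
      ENNReal.ofReal ε) :
    (∫ u in s0..S, B * ((1 - Real.exp (-(2 * u * h))) / (2 * u))) ≤
      (T.card : ℝ) / s0 +
      2 * (48 / (Real.pi * κ0) + 2 * (6 / (Real.pi * κ0) + 2) ^ 2) *
        (ε * (2 * Real.log ((1 + 1 / S) / (1 / S))) / h) +
      (1 + ρ) ^ 2 / σ0 *
        ((∫ u in s0..S, B * ((1 - Real.exp (-(2 * u * h))) / (2 * u))) / (1 - ρ) ^ 2 + C5) := by
  have hpi := Real.pi_pos
  have hκ0 := A.pos
  have hκ1 := A.κ1pos
  have hSpos : 0 < S := by linarith
  have hη : 0 < κ0 * h := by positivity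
  have hη2 : κ0 * h ≤ Real.pi / 3 := by
    have := mul_le_mul_of_nonneg_right A.κ01 hh.le
    have h2 : 0 ≤ κ1 * h := mul_nonneg hκ1.le hh.le
    linarith
  set c : ℝ := Real.sin (κ0 * h) with hcdef
  have hc : 0 < c := Real.sin_pos_of_pos_of_lt_pi hη (by linarith)
  have hc1 : c ≤ 1 := Real.sin_le_one _
  have hσ1 : 1 ≤ σ0 := by
    rw [hσ0]
    have : 0 ≤ 2 * c * (1 - Real.cos (κ0 * h)) :=
      mul_nonneg (by positivity) (by linarith [Real.cos_le_one (κ0 * h)])
    linarith
  set C3 : ℝ := 2 * (48 / (Real.pi * κ0) + 2 * (6 / (Real.pi * κ0) + 2) ^ 2) with hC3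
  have hC3pos : 0 < C3 := by positivity
  set E : ℝ := ∫ u in s0..S, B * ((1 - Real.exp (-(2 * u * h))) / (2 * u)) with hEdef
  have hEnn : 0 ≤ E := by
    apply intervalIntegral.integral_nonneg hS
    intro u hu
    have hu0 : 0 < u := by linarith [hu.1]
    have h3 : Real.exp (-(2 * u * h)) ≤ 1 := by
      rw [Real.exp_le_one_iff]
      have : 0 < 2 * u * h := by positivity
      linarith
    have h4 : 0 ≤ (1 - Real.exp (-(2 * u * h))) / (2 * u) :=
      div_nonneg (by linarith) (by positivity)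
    positivity
  -- stationary points
  have hτex : ∀ i, ∃ t0 ∈ Icc (a + h) (a + 7 * h), IsP θ a h M0 (l i) →
      Real.cos (θ t0 - (l i).arg) = 0 := by
    intro i
    by_cases hP : IsP θ a h M0 (l i)
    · obtain ⟨_, t0, ht0, h0⟩ := hP
      exact ⟨t0, ht0, fun _ => h0⟩
    · exact ⟨a + h, ⟨le_refl _, by linarith⟩, fun h => absurd h hP⟩
  choose τ hτmem hτcos using hτex
  obtain ⟨x, hx, hxle⟩ := exists_good_x
    (fun i => if i ∉ T ∧ IsP θ a h M0 (l i) then ENNReal.ofReal (1 / ‖l i‖) else 0) τ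
    (a := a) (b := a + 8 * h) (p := a + 3 * h) (q := a + 4 * h) (σ := 1 / S) (ε := ε)
    (by linarith) (by linarith) (by linarith) (by linarith) (by positivity)
    (fun i => ⟨by linarith [(hτmem i).1], by linarith [(hτmem i).2]⟩) hm
  have hqp : a + 4 * h - (a + 3 * h) = h := by ring
  rw [hqp] at hxle
  obtain ⟨α, β, hα, hβ, hαβ, hgain⟩ := A.gain hh hang hx
  rw [← hcdef, ← hσ0] at hαβ
  have hE := energy A hB H hh (x := x) (s0 := s0) (S := S) (by linarith [hx.1])
    (by linarith [hx.2]) hs0 hS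
  rw [← hEdef] at hE
  -- pointwise splitting
  set w1 : ℝ := α / (α + β) with hw1
  set w3 : ℝ := β / (α + β) with hw3
  have hw1pos : 0 < w1 := by positivity
  have hw3pos : 0 < w3 := by positivity
  have hw13 : w1 + w3 = 1 := by rw [hw1, hw3]; field_simp
  have hpt : ∀ i, ENNReal.ofReal (∫ u in s0..S, ‖W (phi z (l i)) u x (x + h)‖ ^ 2) ≤
      (if i ∈ T then ENNReal.ofReal (1 / s0) else 0) +
      ENNReal.ofReal C3 *
        ((if i ∉ T ∧ IsP θ a h M0 (l i) then ENNReal.ofReal (1 / ‖l i‖) else 0) *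
          ENNReal.ofReal (1 / (|x - τ i| + 1 / S))) +
      (ENNReal.ofReal ((1 + ρ) ^ 2 / σ0 * w1) *
        (if IsN θ a h M0 c (l i) then ENNReal.ofReal (kf S |vel θ (l i) (a + 2 * h)|) else 0) +
      ENNReal.ofReal ((1 + ρ) ^ 2 / σ0 * w3) *
        (if IsN θ a h M0 c (l i) then ENNReal.ofReal (kf S |vel θ (l i) (a + 5 * h)|) else 0)) := by
    intro i
    have hWc : Continuous fun u => ‖W (phi z (l i)) u x (x + h)‖ ^ 2 :=
      (continuous_W_u (A.phic (l i)) x (x + h)).norm.pow 2
    by_cases hiT : i ∈ T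
    · rw [if_pos hiT]
      refine le_trans ?_ (le_add_right (le_add_right (le_refl _)))
      apply ENNReal.ofReal_le_ofReal
      have hne : ∀ u ∈ uIcc s0 S, u ≠ 0 := by
        intro u hu
        rw [uIcc_of_le hS] at hu
        have : 0 < u := by linarith [hu.1]
        exact this.ne'
      have hq : ∀ u ∈ uIcc s0 S, HasDerivAt (fun u => -u⁻¹) (1 / u ^ 2) u := by
        intro u hu
        have h2 := (hasDerivAt_inv (hne u hu)).neg
        refine h2.congr_deriv ?_
        rw [neg_neg, one_div]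
      have hci : IntervalIntegrable (fun u : ℝ => 1 / u ^ 2) volume s0 S := by
        apply ContinuousOn.intervalIntegrable
        apply ContinuousOn.div continuousOn_const (by fun_prop)
        intro u hu
        exact pow_ne_zero _ (hne u hu)
      have h1 : ∫ u in s0..S, ‖W (phi z (l i)) u x (x + h)‖ ^ 2 ≤ ∫ u in s0..S, 1 / u ^ 2 := by
        apply intervalIntegral.integral_mono_on hS (hWc.intervalIntegrable _ _) hci
        intro u hu
        have hu0 : 0 < u := by linarith [hu.1]
        have h2 := norm_W_le_inv (φ := phi z (l i)) hu0 (by linarith : x ≤ x + h)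
        calc ‖W (phi z (l i)) u x (x + h)‖ ^ 2 ≤ (1 / u) ^ 2 := by gcongr
          _ = 1 / u ^ 2 := by rw [div_pow, one_pow]
      refine h1.trans ?_
      rw [intervalIntegral.integral_eq_sub_of_hasDerivAt hq hci]
      have h3 : 0 < S⁻¹ := by positivity
      rw [one_div]
      linarith
    · have hMi : M0 ≤ ‖l i‖ := by
        by_contra hcon
        push Not at hcon
        exact hiT (hT i hcon)
      have hlpos : 0 < ‖l i‖ := lt_of_lt_of_le hM0 hMi
      by_cases hP : IsP θ a h M0 (l i)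
      · rw [if_pos (show i ∉ T ∧ IsP θ a h M0 (l i) from ⟨hiT, hP⟩)]
        refine le_trans ?_ (le_add_right (le_add_left (le_refl _)))
        rw [← ENNReal.ofReal_mul (by positivity), ← ENNReal.ofReal_mul (by positivity)]
        apply ENNReal.ofReal_le_ofReal
        have h1 := A.stat_upper (a := a) (b := a + 8 * h) (t0 := τ i) (l := l i)
          (x := x) (y := x + h) (s0 := s0) (S := S)
          (by rw [add_sub_cancel_left]; exact hang) hlpos
          ⟨by linarith [(hτmem i).1], by linarith [(hτmem i).2]⟩ (hτcos i hP) (by linarith)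
          ⟨by linarith [hx.1], by linarith [hx.2]⟩ ⟨by linarith [hx.1], by linarith [hx.2]⟩ hs0 hS
        refine h1.trans (le_of_eq ?_)
        rw [← hC3]
        field_simp
      · have hN : IsN θ a h M0 c (l i) := by
          refine ⟨hMi, ?_⟩
          apply A.dichotomy hh hang
          intro t ht h0
          exact hP ⟨hMi, t, ht, h0⟩
        rw [if_pos hN, if_pos hN]
        refine le_trans ?_ (le_add_left (le_refl _))
        have hcne : ∀ t ∈ Icc (a + 2 * h) (a + 6 * h), Real.cos (θ t - (l i).arg) ≠ 0 := by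
          intro t ht h0
          have := hN.2 t ht
          rw [h0, abs_zero] at this
          linarith
        have hvpos : ∀ t ∈ Icc (a + 2 * h) (a + 6 * h), 0 < |vel θ (l i) t| := by
          intro t ht
          unfold vel
          rw [abs_mul, abs_of_pos (by positivity : 0 < 2 * Real.pi * ‖l i‖)]
          have := abs_pos.mpr (hcne t ht)
          positivity
        have hv1 := hvpos (a + 2 * h) ⟨by linarith, by linarith⟩
        have hv3 := hvpos (a + 5 * h) ⟨by linarith, by linarith⟩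
        have hvx := hvpos x ⟨by linarith [hx.1], by linarith [hx.2]⟩
        have hk1 := kf_nonneg hSpos.le hv1
        have hk3 := kf_nonneg hSpos.le hv3
        have hσpos : 0 < σ0 := by linarith
        rw [← ENNReal.ofReal_mul (by positivity), ← ENNReal.ofReal_mul (by positivity),
          ← ENNReal.ofReal_add (by positivity) (by positivity)]
        apply ENNReal.ofReal_le_ofReal
        have hic : Continuous fun u : ℝ => 1 / (u ^ 2 + |vel θ (l i) x| ^ 2) := by
          apply Continuous.div continuous_const (by fun_prop)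
          intro u
          positivity
        have h1 : ∫ u in s0..S, ‖W (phi z (l i)) u x (x + h)‖ ^ 2 ≤
            ∫ u in s0..S, (1 + ρ) ^ 2 * (1 / (u ^ 2 + |vel θ (l i) x| ^ 2)) := by
          apply intervalIntegral.integral_mono_on hS (hWc.intervalIntegrable _ _)
            ((continuous_const.mul hic).intervalIntegrable _ _)
          intro u hu
          exact (A.non_bounds (p := a + 2 * h) (q := a + 6 * h) hc hc1 hlpos hN.2
            (x := x) (y := x + h) (u := u) (ρ := ρ) (by linarith) (by linarith [hx.1])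
            (by linarith [hx.2]) (by linarith [hu.1]) hρ1.le
            (by rw [add_sub_cancel_left]; exact hρ u hu.1)).2
        refine h1.trans ?_
        rw [intervalIntegral.integral_const_mul, integral_kf hvx]
        have h2 := kf_nonneg hs0.le hvx
        have h3 := kf_gain hSpos hα hβ hσ1 hαβ hv1 hv3
        rw [← hgain (l i) hcne, ← hw1, ← hw3] at h3
        have h4 : (1 + ρ) ^ 2 * (kf S |vel θ (l i) x| - kf s0 |vel θ (l i) x|) ≤
            (1 + ρ) ^ 2 * (1 / σ0 * (w1 * kf S |vel θ (l i) (a + 2 * h)| +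
              w3 * kf S |vel θ (l i) (a + 5 * h)|)) := by
          apply mul_le_mul_of_nonneg_left _ (by positivity)
          linarith
        refine h4.trans (le_of_eq ?_)
        ring
  have hsum := ENNReal.tsum_le_tsum hpt
  rw [hE, ENNReal.tsum_add, ENNReal.tsum_add, ENNReal.tsum_add, ENNReal.tsum_mul_left,
    ENNReal.tsum_mul_left, ENNReal.tsum_mul_left] at hsum
  have hk1 := sum_kf A hB hh H hM0 hc hc1 hρ0 hρ1 hs0 hS hρ (x := a + 2 * h) (le_refl _)
    (by linarith) hC5 (hsumN _ (le_refl _) (by linarith))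
  have hk3 := sum_kf A hB hh H hM0 hc hc1 hρ0 hρ1 hs0 hS hρ (x := a + 5 * h) (by linarith)
    (le_refl _) hC5 (hsumN _ (by linarith) (le_refl _))
  rw [← hEdef] at hk1 hk3
  have hTs : ∑' i, (if i ∈ T then ENNReal.ofReal (1 / s0) else 0) =
      ENNReal.ofReal ((T.card : ℝ) / s0) := by
    rw [tsum_eq_sum (s := T) (fun i hi => if_neg hi), Finset.sum_ite_mem, Finset.inter_self,
      Finset.sum_const, nsmul_eq_mul, ← ENNReal.ofReal_natCast, ← ENNReal.ofReal_mul (by positivity)]
    congr 1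
    ring
  rw [hTs] at hsum
  have hσpos : 0 < σ0 := by linarith
  have hρ' : 0 < 1 - ρ := by linarith
  set F : ℝ := E / (1 - ρ) ^ 2 + C5 with hF
  have hFnn : 0 ≤ F := by positivity
  have hlog : 0 ≤ Real.log ((1 + 1 / S) / (1 / S)) := by
    apply Real.log_nonneg
    rw [le_div_iff₀ (by positivity)]
    linarith
  have hfin : ENNReal.ofReal E ≤ ENNReal.ofReal ((T.card : ℝ) / s0 +
      C3 * (ε * (2 * Real.log ((1 + 1 / S) / (1 / S))) / h) + (1 + ρ) ^ 2 / σ0 * F) := by
    refine hsum.trans ?_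
    rw [ENNReal.ofReal_add (by positivity) (by positivity),
      ENNReal.ofReal_add (by positivity) (by positivity)]
    refine add_le_add (add_le_add (le_refl _) ?_) ?_
    · rw [ENNReal.ofReal_mul hC3pos.le]
      gcongr
    · have e : (1 + ρ) ^ 2 / σ0 * F = (1 + ρ) ^ 2 / σ0 * w1 * F + (1 + ρ) ^ 2 / σ0 * w3 * F := by
        rw [← add_mul, ← mul_add, hw13, mul_one]
      rw [e, ENNReal.ofReal_add (by positivity) (by positivity),
        ENNReal.ofReal_mul (p := (1 + ρ) ^ 2 / σ0 * w1) (by positivity),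
        ENNReal.ofReal_mul (p := (1 + ρ) ^ 2 / σ0 * w3) (by positivity)]
      gcongr
  exact (ENNReal.ofReal_le_ofReal_iff (by positivity)).mp hfin

end H17Arc
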