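import Pool.Agent.H17Arc.Fresnel

set_option autoImplicit false

open MeasureTheory Set

namespace H17Arc

lemma norm_ker_self (φ : ℝ → ℝ) (u x : ℝ) : ‖ker φ u x x‖ = 1 := by
  rw [norm_ker]; simp

/-- The leading term of the damped integral when there is no stationary point. -/
lemma nonstat_approx {φ v w : ℝ → ℝ} (hφ : ∀ t, HasDerivAt φ (v t) t)
    (hv : ∀ t, HasDerivAt v (w t) t) (hw : Continuous w) {u x y c κ : ℝ} (hxy : x ≤ y)
    (hu : 0 < u) (hc : 0 < c) (hc1 : c ≤ 1) (hκ : 0 ≤ κ) (hvx : v x ≠ 0)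
    (hvc : ∀ t ∈ Icc x y, c * |v x| ≤ |v t|) (hwv : ∀ t ∈ Icc x y, |w t| ≤ κ * |v t|) :
    ‖W φ u x y - ker φ u x x / D v u x‖ ≤
      (Real.exp (-(u * (y - x))) / c + κ / (c * u)) / ‖D v u x‖ := by
  have hvcont : Continuous v := continuous_iff_continuousAt.mpr fun t => (hv t).continuousAt
  have hDc : Continuous (D v u) := by unfold D; fun_prop
  have hvx' : 0 < |v x| := abs_pos.mpr hvx
  have hvabs : ∀ t ∈ Icc x y, 0 < |v t| := fun t ht =>
    lt_of_lt_of_le (by positivity) (hvc t ht)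
  have hne : ∀ t ∈ uIcc x y, v t ≠ 0 := by
    intro t ht
    rw [uIcc_of_le hxy] at ht
    exact abs_pos.mp (hvabs t ht)
  have hDx : 0 < ‖D v u x‖ := norm_D_pos_of hvx
  have hDt : ∀ t ∈ Icc x y, c * ‖D v u x‖ ≤ ‖D v u t‖ := by
    intro t ht
    have h1 : (c * ‖D v u x‖) ^ 2 ≤ ‖D v u t‖ ^ 2 := by
      rw [mul_pow, normSq_D, normSq_D]
      have h2 : (c * |v x|) ^ 2 ≤ |v t| ^ 2 := by
        have := hvc t ht
        gcongr
      rw [mul_pow, sq_abs, sq_abs] at h2
      have h3 : c ^ 2 ≤ 1 := by nlinarith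
      nlinarith [sq_nonneg u]
    exact le_of_sq_le_sq h1 (norm_nonneg _)
  rw [ibp hφ hv hw u x y hne]
  have e : ker φ u x x / D v u x - ker φ u x y / D v u y
      - (∫ t in x..y, ker φ u x t * ((w t : ℂ) * Complex.I) / (D v u t) ^ 2)
      - ker φ u x x / D v u x = -(ker φ u x y / D v u y +
        (∫ t in x..y, ker φ u x t * ((w t : ℂ) * Complex.I) / (D v u t) ^ 2)) := by ring
  rw [e, norm_neg]
  refine (norm_add_le _ _).trans ?_
  have h1 : ‖ker φ u x y / D v u y‖ ≤ Real.exp (-(u * (y - x))) / c / ‖D v u x‖ := by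
    rw [norm_div, norm_ker, div_div]
    apply div_le_div_of_nonneg_left (Real.exp_pos _).le (by positivity)
    exact hDt y ⟨hxy, le_refl _⟩
  have h2 : ‖∫ t in x..y, ker φ u x t * ((w t : ℂ) * Complex.I) / (D v u t) ^ 2‖ ≤
      ∫ t in x..y, κ / (c * ‖D v u x‖) * Real.exp (-(u * (t - x))) := by
    apply intervalIntegral.norm_integral_le_of_norm_le hxy
    · refine Filter.Eventually.of_forall ?_
      intro t ht
      have ht' : t ∈ Icc x y := ⟨ht.1.le, ht.2⟩
      have hDtt := hDt t ht'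
      have hDpos : 0 < ‖D v u t‖ := lt_of_lt_of_le (by positivity) hDtt
      rw [norm_div, norm_mul, norm_mul, norm_ker, Complex.norm_I, mul_one, norm_pow,
        Complex.norm_real, Real.norm_eq_abs]
      have h3 : |w t| ≤ κ * ‖D v u t‖ :=
        (hwv t ht').trans (mul_le_mul_of_nonneg_left (abs_le_norm_D v u t) hκ)
      calc Real.exp (-(u * (t - x))) * |w t| / ‖D v u t‖ ^ 2
          ≤ Real.exp (-(u * (t - x))) * (κ * ‖D v u t‖) / ‖D v u t‖ ^ 2 := by gcongr
        _ = Real.exp (-(u * (t - x))) * (κ / ‖D v u t‖) := by field_simp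
        _ ≤ Real.exp (-(u * (t - x))) * (κ / (c * ‖D v u x‖)) := by gcongr
        _ = _ := by ring
    · exact (by fun_prop : Continuous fun t =>
        κ / (c * ‖D v u x‖) * Real.exp (-(u * (t - x)))).intervalIntegrable _ _
  rw [intervalIntegral.integral_const_mul, integral_exp_window hu.ne'] at h2
  have h3 : κ / (c * ‖D v u x‖) * ((1 - Real.exp (-(u * (y - x)))) / u) ≤
      κ / (c * ‖D v u x‖) * (1 / u) := by
    gcongr
    linarith [Real.exp_pos (-(u * (y - x)))]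
  have h4 : κ / (c * ‖D v u x‖) * (1 / u) = κ / (c * u) / ‖D v u x‖ := by
    field_simp
  have h5 : (Real.exp (-(u * (y - x))) / c + κ / (c * u)) / ‖D v u x‖ =
      Real.exp (-(u * (y - x))) / c / ‖D v u x‖ + κ / (c * u) / ‖D v u x‖ := by ring
  rw [h5]
  linarith

/-- Two-sided bound for the square of the damped integral without stationary point. -/
lemma nonstat_bounds {φ v w : ℝ → ℝ} (hφ : ∀ t, HasDerivAt φ (v t) t)
    (hv : ∀ t, HasDerivAt v (w t) t) (hw : Continuous w) {u x y c κ ρ : ℝ} (hxy : x ≤ y)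
    (hu : 0 < u) (hc : 0 < c) (hc1 : c ≤ 1) (hκ : 0 ≤ κ) (hvx : v x ≠ 0)
    (hvc : ∀ t ∈ Icc x y, c * |v x| ≤ |v t|) (hwv : ∀ t ∈ Icc x y, |w t| ≤ κ * |v t|)
    (hρ1 : ρ ≤ 1) (hρ : Real.exp (-(u * (y - x))) / c + κ / (c * u) ≤ ρ) :
    (1 - ρ) ^ 2 * (1 / (u ^ 2 + (v x) ^ 2)) ≤ ‖W φ u x y‖ ^ 2 ∧
      ‖W φ u x y‖ ^ 2 ≤ (1 + ρ) ^ 2 * (1 / (u ^ 2 + (v x) ^ 2)) := by
  have h1 := nonstat_approx hφ hv hw hxy hu hc hc1 hκ hvx hvc hwv
  have hDx : 0 < ‖D v u x‖ := norm_D_pos_of hvx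
  have h2 : ‖W φ u x y - ker φ u x x / D v u x‖ ≤ ρ / ‖D v u x‖ :=
    h1.trans (by gcongr)
  have h3 : ‖ker φ u x x / D v u x‖ = 1 / ‖D v u x‖ := by
    rw [norm_div, norm_ker_self]
  have h4 : ‖W φ u x y‖ ≤ (1 + ρ) / ‖D v u x‖ := by
    have := norm_add_le (W φ u x y - ker φ u x x / D v u x) (ker φ u x x / D v u x)
    rw [sub_add_cancel, h3] at this
    rw [add_div]; linarith
  have h5 : (1 - ρ) / ‖D v u x‖ ≤ ‖W φ u x y‖ := by
    have := norm_sub_le (W φ u x y - ker φ u x x / D v u x) (W φ u x y)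
    have e : W φ u x y - ker φ u x x / D v u x - W φ u x y = -(ker φ u x x / D v u x) := by ring
    rw [e, norm_neg, h3] at this
    rw [sub_div]; linarith
  have hsq : u ^ 2 + v x ^ 2 = ‖D v u x‖ ^ 2 := (normSq_D v u x).symm
  rw [hsq]
  constructor
  · calc (1 - ρ) ^ 2 * (1 / ‖D v u x‖ ^ 2) = ((1 - ρ) / ‖D v u x‖) ^ 2 := by
          rw [div_pow]; ring
      _ ≤ ‖W φ u x y‖ ^ 2 := by
          have : 0 ≤ (1 - ρ) / ‖D v u x‖ := div_nonneg (by linarith) hDx.le
          gcongr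
  · calc ‖W φ u x y‖ ^ 2 ≤ ((1 + ρ) / ‖D v u x‖) ^ 2 := by gcongr
      _ = (1 + ρ) ^ 2 * (1 / ‖D v u x‖ ^ 2) := by rw [div_pow]; ring

/-- `arctan (S / p) / p = ∫_0^S du / (u^2 + p^2)` -/
noncomputable def kf (S p : ℝ) : ℝ := Real.arctan (S / p) / p

lemma integral_kf {s0 S p : ℝ} (hp : 0 < p) :
    ∫ u in s0..S, 1 / (u ^ 2 + p ^ 2) = kf S p - kf s0 p := by
  have h : ∀ u ∈ uIcc s0 S, HasDerivAt (fun u => Real.arctan (u / p) / p)
      (1 / (u ^ 2 + p ^ 2)) u := by
    intro u _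
    have h1 := (((hasDerivAt_id u).div_const p).arctan).div_const p
    refine h1.congr_deriv ?_
    have : 1 + (u / p) ^ 2 ≠ 0 := by positivity
    have : u ^ 2 + p ^ 2 ≠ 0 := by positivity
    simp only [id]
    field_simp
    ring
  rw [intervalIntegral.integral_eq_sub_of_hasDerivAt h]
  · rfl
  · apply Continuous.intervalIntegrable
    apply Continuous.div continuous_const (by fun_prop)
    intro u
    positivity

lemma kf_nonneg {S p : ℝ} (hS : 0 ≤ S) (hp : 0 < p) : 0 ≤ kf S p := by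
  unfold kf
  apply div_nonneg _ hp.le
  exact Real.arctan_nonneg.mpr (by positivity)

lemma arctan_le_self' {x : ℝ} (hx : 0 ≤ x) : Real.arctan x ≤ x := by
  have h1 : ∀ t ∈ Icc (0:ℝ) x, (fun t => Real.arctan t - t) t ≤ (fun t => Real.arctan t - t) 0 := by
    intro t ht
    have hd : ∀ s, HasDerivAt (fun t => Real.arctan t - t) (1 / (1 + s ^ 2) - 1) s := by
      intro s
      exact (Real.hasDerivAt_arctan s).sub (hasDerivAt_id s)
    have := v_upper (v := fun t => Real.arctan t - t) (w := fun s => 1 / (1 + s ^ 2) - 1)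
      (a := 0) (b := x) (c := 0) hd (fun s _ => by
        have : 1 / (1 + s ^ 2) ≤ 1 := by
          rw [div_le_one (by positivity)]
          nlinarith [sq_nonneg s]
        linarith) (s := 0) (t := t) ⟨le_refl _, hx⟩ ht ht.1
    simp only [zero_mul] at this
    linarith
  have := h1 x ⟨hx, le_refl _⟩
  simp at this
  exact this

lemma kf_le {s0 p : ℝ} (hs : 0 ≤ s0) (hp : 0 < p) : kf s0 p ≤ s0 / p ^ 2 := by
  unfold kf
  have := arctan_le_self' (x := s0 / p) (by positivity)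
  calc Real.arctan (s0 / p) / p ≤ (s0 / p) / p := by gcongr
    _ = s0 / p ^ 2 := by rw [div_div, sq]

lemma kf_scale {S σ q : ℝ} (hS : 0 ≤ S) (hσ : 1 ≤ σ) (hq : 0 < q) :
    kf S (σ * q) ≤ kf S q / σ := by
  unfold kf
  have hσ0 : 0 < σ := by linarith
  have h1 : S / (σ * q) ≤ S / q := by
    apply div_le_div_of_nonneg_left hS hq
    nlinarith
  have h2 : Real.arctan (S / (σ * q)) ≤ Real.arctan (S / q) := Real.arctan_mono h1
  calc Real.arctan (S / (σ * q)) / (σ * q) ≤ Real.arctan (S / q) / (σ * q) := by gcongr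
    _ = _ := by rw [div_div, mul_comm]

lemma kf_convex {S : ℝ} (hS : 0 < S) : ConvexOn ℝ (Ioi 0) (kf S) := by
  have h1 : ConvexOn ℝ (Ioi (0:ℝ)) (fun p => Real.arctan (S / p)) := by
    have hd : ∀ p ∈ Ioi (0:ℝ), HasDerivAt (fun p => Real.arctan (S / p))
        (-(S / (p ^ 2 + S ^ 2))) p := by
      intro p hp
      have hp' : (0:ℝ) < p := hp
      have h1 := ((hasDerivAt_inv hp'.ne').const_mul S).arctan
      have h2 : (fun p => Real.arctan (S / p)) = fun p => Real.arctan (S * p⁻¹) := by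
        ext p; rw [div_eq_mul_inv]
      rw [h2]
      refine h1.congr_deriv ?_
      have : 1 + (S * p⁻¹) ^ 2 ≠ 0 := by positivity
      have : p ^ 2 + S ^ 2 ≠ 0 := by positivity
      field_simp
    apply MonotoneOn.convexOn_of_deriv (convex_Ioi 0)
    · intro p hp
      exact (hd p hp).continuousAt.continuousWithinAt
    · intro p hp
      rw [interior_Ioi] at hp
      exact (hd p hp).differentiableAt.differentiableWithinAt
    · rw [interior_Ioi]
      intro p hp q hq hpq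
      have hp' : (0:ℝ) < p := hp
      rw [(hd p hp).deriv, (hd q hq).deriv]
      apply neg_le_neg
      gcongr
  have h2 : ConvexOn ℝ (Ioi (0:ℝ)) (fun p => p⁻¹) := by
    have h := convexOn_zpow (𝕜 := ℝ) (-1)
    simpa using h
  have h3 : MonovaryOn (fun p => Real.arctan (S / p)) (fun p : ℝ => p⁻¹) (Ioi (0:ℝ)) := by
    intro p hp q hq hpq
    have hp' : (0:ℝ) < p := hp
    have hq' : (0:ℝ) < q := hq
    have h4 : q < p := by
      simp only at hpq
      exact (inv_lt_inv₀ hp' hq').mp hpq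
    apply Real.arctan_mono
    gcongr
  have h5 := h1.mul h2 (fun p hp => Real.arctan_nonneg.mpr (by
      have hp' : (0:ℝ) < p := hp
      positivity)) (fun p hp => by
      have hp' : (0:ℝ) < p := hp
      positivity) h3
  refine h5.congr ?_
  intro p _
  unfold kf
  simp [div_eq_mul_inv]

/-- the gain at the intermediate point -/
lemma kf_gain {S α β p1 p3 σ0 : ℝ} (hS : 0 < S) (hα : 0 < α) (hβ : 0 < β) (hσ0 : 1 ≤ σ0)
    (hσ : σ0 ≤ α + β) (hp1 : 0 < p1) (hp3 : 0 < p3) :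
    kf S (α * p1 + β * p3) ≤
      (1 / σ0) * (α / (α + β) * kf S p1 + β / (α + β) * kf S p3) := by
  set σ := α + β with hσdef
  have hσpos : 0 < σ := by positivity
  have h1 : α * p1 + β * p3 = σ * ((α / σ) * p1 + (β / σ) * p3) := by
    field_simp
  have hq : 0 < (α / σ) * p1 + (β / σ) * p3 := by positivity
  have hc := (kf_convex hS).2 (show p1 ∈ Ioi 0 from hp1) (show p3 ∈ Ioi 0 from hp3)
    (by positivity : 0 ≤ α / σ) (by positivity : 0 ≤ β / σ) (by rw [← add_div, ← hσdef]; field_simp)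
  simp only [smul_eq_mul] at hc
  rw [h1]
  refine (kf_scale hS.le (hσ0.trans hσ) hq).trans ?_
  have h2 : kf S ((α / σ) * p1 + (β / σ) * p3) / σ ≤
      (α / σ * kf S p1 + β / σ * kf S p3) / σ := by gcongr
  refine h2.trans ?_
  rw [div_eq_mul_one_div, mul_comm]
  have h3 : 0 ≤ α / σ * kf S p1 + β / σ * kf S p3 := by
    have := kf_nonneg hS.le hp1
    have := kf_nonneg hS.le hp3
    positivity
  apply mul_le_mul_of_nonneg_right _ h3
  apply one_div_le_one_div_of_le (by linarith) hσ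

end H17Arc
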