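import Mathlib

set_option autoImplicit false

open MeasureTheory Set

namespace H17Arc

/-- The kernel `exp(-u (t - x) - i φ(t))`. -/
noncomputable def ker (φ : ℝ → ℝ) (u x t : ℝ) : ℂ :=
  Complex.exp (((-(u * (t - x)) : ℝ) : ℂ) + ((-φ t : ℝ) : ℂ) * Complex.I)

/-- The windowed exponential integral `∫_x^y exp(-u (t - x) - i φ(t)) dt`. -/
noncomputable def W (φ : ℝ → ℝ) (u x y : ℝ) : ℂ := ∫ t in x..y, ker φ u x t

lemma norm_ker (φ : ℝ → ℝ) (u x t : ℝ) : ‖ker φ u x t‖ = Real.exp (-(u * (t - x))) := by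
  unfold ker
  rw [Complex.norm_exp]
  congr 1
  simp

lemma continuous_ker {φ : ℝ → ℝ} (hφ : Continuous φ) (u x : ℝ) : Continuous (ker φ u x) := by
  unfold ker
  fun_prop

lemma ker_ne_zero (φ : ℝ → ℝ) (u x t : ℝ) : ker φ u x t ≠ 0 := Complex.exp_ne_zero _

lemma ker_shift (φ : ℝ → ℝ) (u x m t : ℝ) :
    ker φ u x t = ((Real.exp (-(u * (m - x))) : ℝ) : ℂ) * ker φ u m t := by
  unfold ker
  rw [Complex.ofReal_exp, ← Complex.exp_add]
  congr 1
  push_cast
  ring

lemma W_split {φ : ℝ → ℝ} (hφ : Continuous φ) (u x m y : ℝ) :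
    W φ u x y = W φ u x m + ((Real.exp (-(u * (m - x))) : ℝ) : ℂ) * W φ u m y := by
  unfold W
  rw [← intervalIntegral.integral_const_mul]
  have h : ∀ t, ((Real.exp (-(u * (m - x))) : ℝ) : ℂ) * ker φ u m t = ker φ u x t :=
    fun t => (ker_shift φ u x m t).symm
  simp_rw [h]
  exact (intervalIntegral.integral_add_adjacent_intervals
    ((continuous_ker hφ u x).intervalIntegrable _ _)
    ((continuous_ker hφ u x).intervalIntegrable _ _)).symm

lemma integral_exp_window {u x y : ℝ} (hu : u ≠ 0) :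
    ∫ t in x..y, Real.exp (-(u * (t - x))) = (1 - Real.exp (-(u * (y - x)))) / u := by
  have h : ∀ t ∈ uIcc x y, HasDerivAt (fun t => -Real.exp (-(u * (t - x))) / u)
      (Real.exp (-(u * (t - x)))) t := by
    intro t _
    have h1 : HasDerivAt (fun t : ℝ => -(u * (t - x))) (-(u * 1)) t :=
      (((hasDerivAt_id t).sub_const x).const_mul u).neg
    have h2 := (h1.exp.neg).div_const u
    refine h2.congr_deriv ?_
    field_simp
  rw [intervalIntegral.integral_eq_sub_of_hasDerivAt h
    ((by fun_prop : Continuous fun t => Real.exp (-(u * (t - x)))).intervalIntegrable _ _)]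
  simp
  ring

lemma norm_W_le_integral {φ : ℝ → ℝ} {u x y : ℝ} (hxy : x ≤ y) :
    ‖W φ u x y‖ ≤ ∫ t in x..y, Real.exp (-(u * (t - x))) := by
  unfold W
  refine (intervalIntegral.norm_integral_le_integral_norm hxy).trans (le_of_eq ?_)
  simp_rw [norm_ker]

lemma norm_W_le_inv {φ : ℝ → ℝ} {u x y : ℝ} (hu : 0 < u) (hxy : x ≤ y) :
    ‖W φ u x y‖ ≤ 1 / u := by
  refine (norm_W_le_integral hxy).trans ?_
  rw [integral_exp_window hu.ne']
  gcongr
  linarith [Real.exp_pos (-(u * (y - x)))]

lemma norm_W_le_len {φ : ℝ → ℝ} {u x y : ℝ} (hu : 0 ≤ u) (hxy : x ≤ y) :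
    ‖W φ u x y‖ ≤ y - x := by
  unfold W
  have h := intervalIntegral.norm_integral_le_of_norm_le_const (a := x) (b := y)
    (f := ker φ u x) (C := 1) (by
      intro t ht
      rw [uIoc_of_le hxy] at ht
      rw [norm_ker, Real.exp_le_one_iff]
      have : 0 ≤ u * (t - x) := mul_nonneg hu (by linarith [ht.1])
      linarith)
  rw [abs_of_nonneg (by linarith)] at h
  linarith

lemma norm_W_neg {φ : ℝ → ℝ} {u x y : ℝ} (hxy : x ≤ y) :
    ‖W (fun t => -φ t) u x y‖ = ‖W φ u x y‖ := by
  have h : W (fun t => -φ t) u x y = (starRingEnd ℂ) (W φ u x y) := by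
    unfold W
    rw [intervalIntegral.integral_of_le hxy, intervalIntegral.integral_of_le hxy,
      ← integral_conj]
    congr 1
    ext t
    unfold ker
    rw [← Complex.exp_conj]
    congr 1
    simp
  rw [h, RCLike.norm_conj]

/-- the denominator `u + i v` -/
noncomputable def D (v : ℝ → ℝ) (u t : ℝ) : ℂ := (u : ℂ) + (v t : ℂ) * Complex.I

lemma normSq_D (v : ℝ → ℝ) (u t : ℝ) : ‖D v u t‖ ^ 2 = u ^ 2 + v t ^ 2 := by
  rw [← Complex.normSq_eq_norm_sq]
  unfold D
  rw [Complex.normSq_apply]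
  simp
  ring

lemma abs_le_norm_D (v : ℝ → ℝ) (u t : ℝ) : |v t| ≤ ‖D v u t‖ := by
  rw [← abs_of_nonneg (norm_nonneg (D v u t))]
  apply sq_le_sq.mp
  rw [normSq_D]
  nlinarith [sq_nonneg u]

lemma norm_D_pos_of {v : ℝ → ℝ} {u t : ℝ} (h : v t ≠ 0) : 0 < ‖D v u t‖ :=
  lt_of_lt_of_le (abs_pos.mpr h) (abs_le_norm_D v u t)

/-- integration by parts -/
lemma ibp {φ v w : ℝ → ℝ} (hφ : ∀ t, HasDerivAt φ (v t) t) (hv : ∀ t, HasDerivAt v (w t) t)
    (hw : Continuous w) (u x y : ℝ) (hD : ∀ t ∈ uIcc x y, v t ≠ 0) :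
    W φ u x y = ker φ u x x / D v u x - ker φ u x y / D v u y
      - ∫ t in x..y, ker φ u x t * ((w t : ℂ) * Complex.I) / (D v u t) ^ 2 := by
  have hφc : Continuous φ := continuous_iff_continuousAt.mpr fun t => (hφ t).continuousAt
  have hvc : Continuous v := continuous_iff_continuousAt.mpr fun t => (hv t).continuousAt
  have hDc : Continuous (D v u) := by unfold D; fun_prop
  have hD0 : ∀ t ∈ uIcc x y, D v u t ≠ 0 := fun t ht => by
    have := norm_D_pos_of (u := u) (hD t ht)
    intro h0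
    rw [h0, norm_zero] at this
    exact lt_irrefl _ this
  have hk : ∀ t, HasDerivAt (ker φ u x) (-(ker φ u x t * D v u t)) t := by
    intro t
    unfold ker
    have h1 : HasDerivAt (fun t : ℝ => -(u * (t - x))) (-(u * 1)) t :=
      (((hasDerivAt_id t).sub_const x).const_mul u).neg
    have h2 : HasDerivAt (fun t : ℝ => -φ t) (-v t) t := (hφ t).neg
    have h3 := (h1.ofReal_comp.add (h2.ofReal_comp.mul_const Complex.I)).cexp
    refine (h3.congr_deriv ?_)
    unfold D
    simp only [Pi.add_apply]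
    push_cast
    ring
  have hDd : ∀ t, HasDerivAt (D v u) ((w t : ℂ) * Complex.I) t := by
    intro t
    unfold D
    have := ((hv t).ofReal_comp.mul_const Complex.I).const_add (u : ℂ)
    exact this
  have hH : ∀ t ∈ uIcc x y, HasDerivAt (fun t => -(ker φ u x t / D v u t))
      (ker φ u x t + ker φ u x t * ((w t : ℂ) * Complex.I) / (D v u t) ^ 2) t := by
    intro t ht
    have h := ((hk t).div (hDd t) (hD0 t ht)).neg
    refine h.congr_deriv ?_
    have := hD0 t ht
    field_simp
    ring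
  have hc1 : Continuous (ker φ u x) := continuous_ker hφc u x
  have hi1 : IntervalIntegrable (ker φ u x) volume x y := hc1.intervalIntegrable _ _
  have hi2 : IntervalIntegrable
      (fun t => ker φ u x t * ((w t : ℂ) * Complex.I) / (D v u t) ^ 2) volume x y := by
    apply ContinuousOn.intervalIntegrable
    apply ContinuousOn.div
    · exact (hc1.mul ((Complex.continuous_ofReal.comp hw).mul continuous_const)).continuousOn
    · exact (hDc.pow 2).continuousOn
    · intro t ht
      exact pow_ne_zero _ (hD0 t ht)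
  have hI := intervalIntegral.integral_eq_sub_of_hasDerivAt hH (hi1.add hi2)
  rw [intervalIntegral.integral_add hi1 hi2] at hI
  unfold W
  rw [eq_sub_iff_add_eq, hI]
  ring

lemma integral_w_div_sq {v w : ℝ → ℝ} (hv : ∀ t, HasDerivAt v (w t) t)
    (hw : Continuous w) (x y : ℝ) (hD : ∀ t ∈ uIcc x y, v t ≠ 0) :
    ∫ t in x..y, w t / (v t) ^ 2 = (v x)⁻¹ - (v y)⁻¹ := by
  have hvc : Continuous v := continuous_iff_continuousAt.mpr fun t => (hv t).continuousAt
  have hH : ∀ t ∈ uIcc x y, HasDerivAt (fun t => -(v t)⁻¹) (w t / (v t) ^ 2) t := by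
    intro t ht
    have h := ((hv t).inv (hD t ht)).neg
    refine h.congr_deriv ?_
    ring
  rw [intervalIntegral.integral_eq_sub_of_hasDerivAt hH]
  · ring
  · apply ContinuousOn.intervalIntegrable
    apply ContinuousOn.div hw.continuousOn (hvc.pow 2).continuousOn
    intro t ht
    exact pow_ne_zero _ (hD t ht)

/-- First-derivative bound with a damping factor. -/
lemma norm_W_le_first {φ v w : ℝ → ℝ} (hφ : ∀ t, HasDerivAt φ (v t) t)
    (hv : ∀ t, HasDerivAt v (w t) t) (hw : Continuous w) {u x y m : ℝ} (hxy : x ≤ y)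
    (hu : 0 ≤ u) (hm : 0 < m) (hw0 : ∀ t ∈ Icc x y, 0 ≤ w t)
    (hvm : (∀ t ∈ Icc x y, m ≤ v t) ∨ (∀ t ∈ Icc x y, v t ≤ -m)) :
    ‖W φ u x y‖ ≤ 3 / m := by
  have hvc : Continuous v := continuous_iff_continuousAt.mpr fun t => (hv t).continuousAt
  have habs : ∀ t ∈ Icc x y, m ≤ |v t| := by
    intro t ht
    rcases hvm with h | h
    · exact (h t ht).trans (le_abs_self _)
    · have := h t ht
      rw [abs_of_nonpos (by linarith)]
      linarith
  have hne : ∀ t ∈ uIcc x y, v t ≠ 0 := by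
    intro t ht
    rw [uIcc_of_le hxy] at ht
    have := habs t ht
    intro h0
    rw [h0, abs_zero] at this
    linarith
  have hD1 : ∀ t ∈ Icc x y, ‖ker φ u x t / D v u t‖ ≤ 1 / m := by
    intro t ht
    rw [norm_div, norm_ker]
    have h1 : Real.exp (-(u * (t - x))) ≤ 1 := by
      rw [Real.exp_le_one_iff]
      have : 0 ≤ u * (t - x) := mul_nonneg hu (by linarith [ht.1])
      linarith
    have h2 : m ≤ ‖D v u t‖ := (habs t ht).trans (abs_le_norm_D v u t)
    exact div_le_div₀ zero_le_one h1 hm h2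
  have hint : ‖∫ t in x..y, ker φ u x t * ((w t : ℂ) * Complex.I) / (D v u t) ^ 2‖ ≤ 1 / m := by
    have h1 : ‖∫ t in x..y, ker φ u x t * ((w t : ℂ) * Complex.I) / (D v u t) ^ 2‖
        ≤ ∫ t in x..y, w t / (v t) ^ 2 := by
      apply intervalIntegral.norm_integral_le_of_norm_le hxy
      · refine Filter.Eventually.of_forall ?_
        intro t ht
        have ht' : t ∈ Icc x y := ⟨ht.1.le, ht.2⟩
        rw [norm_div, norm_mul, norm_mul, norm_ker, Complex.norm_I, mul_one, norm_pow,
          normSq_D, Complex.norm_real, Real.norm_eq_abs, abs_of_nonneg (hw0 t ht')]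
        have h1 : Real.exp (-(u * (t - x))) ≤ 1 := by
          rw [Real.exp_le_one_iff]
          have : 0 ≤ u * (t - x) := mul_nonneg hu (by linarith [ht.1])
          linarith
        have h3 : 0 < v t ^ 2 := by
          have := hne t (by rw [uIcc_of_le hxy]; exact ht')
          positivity
        apply div_le_div₀ (hw0 t ht')
        · nlinarith [hw0 t ht']
        · exact h3
        · nlinarith [sq_nonneg u]
      · apply ContinuousOn.intervalIntegrable
        apply ContinuousOn.div hw.continuousOn (hvc.pow 2).continuousOn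
        intro t ht
        exact pow_ne_zero _ (hne t ht)
    refine h1.trans ?_
    rw [integral_w_div_sq hv hw x y hne]
    have hx : x ∈ Icc x y := ⟨le_refl _, hxy⟩
    have hy : y ∈ Icc x y := ⟨hxy, le_refl _⟩
    rcases hvm with h | h
    · have h1 := h x hx
      have h2 := h y hy
      have h3 : (v x)⁻¹ ≤ 1 / m := by
        rw [one_div]; exact inv_anti₀ hm h1
      have h4 : 0 < (v y)⁻¹ := inv_pos.mpr (by linarith)
      linarith
    · have h1 := h x hx
      have h2 := h y hy
      have h3 : -(v y)⁻¹ ≤ 1 / m := by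
        rw [one_div, ← inv_neg]; exact inv_anti₀ hm (by linarith)
      have h4 : (v x)⁻¹ < 0 := inv_lt_zero.mpr (by linarith)
      linarith
  rw [ibp hφ hv hw u x y hne]
  refine (norm_sub_le _ _).trans ?_
  have h5 := norm_sub_le (ker φ u x x / D v u x) (ker φ u x y / D v u y)
  have h6 := hD1 x ⟨le_refl _, hxy⟩
  have h7 := hD1 y ⟨hxy, le_refl _⟩
  have h8 : (3 : ℝ) / m = 1 / m + 1 / m + 1 / m := by ring
  linarith

end H17Arc
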