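import Pool.Agent.H17Arc.Osc

set_option autoImplicit false

open MeasureTheory Set

namespace H17Arc

lemma v_lower {v w : ℝ → ℝ} (hv : ∀ t, HasDerivAt v (w t) t) {a b c : ℝ}
    (hc : ∀ t ∈ Icc a b, c ≤ w t) {s t : ℝ} (hs : s ∈ Icc a b) (ht : t ∈ Icc a b)
    (hst : s ≤ t) : c * (t - s) ≤ v t - v s := by
  have hvc : Continuous v := continuous_iff_continuousAt.mpr fun t => (hv t).continuousAt
  refine Convex.mul_sub_le_image_sub_of_le_deriv (convex_Icc a b) hvc.continuousOn
    (fun x _ => (hv x).differentiableAt.differentiableWithinAt) ?_ s hs t ht hst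
  intro x hx
  rw [(hv x).deriv]
  exact hc x (interior_subset hx)

lemma v_upper {v w : ℝ → ℝ} (hv : ∀ t, HasDerivAt v (w t) t) {a b c : ℝ}
    (hc : ∀ t ∈ Icc a b, w t ≤ c) {s t : ℝ} (hs : s ∈ Icc a b) (ht : t ∈ Icc a b)
    (hst : s ≤ t) : v t - v s ≤ c * (t - s) := by
  have hvc : Continuous v := continuous_iff_continuousAt.mpr fun t => (hv t).continuousAt
  refine Convex.image_sub_le_mul_sub_of_deriv_le (convex_Icc a b) hvc.continuousOn
    (fun x _ => (hv x).differentiableAt.differentiableWithinAt) ?_ s hs t ht hst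
  intro x hx
  rw [(hv x).deriv]
  exact hc x (interior_subset hx)

lemma W_self (φ : ℝ → ℝ) (u x : ℝ) : W φ u x x = 0 := by
  unfold W; simp

/-- Second-derivative bound (van der Corput), uniform in the damping. -/
lemma norm_W_le_second {φ v w : ℝ → ℝ} (hφ : ∀ t, HasDerivAt φ (v t) t)
    (hv : ∀ t, HasDerivAt v (w t) t) (hw : Continuous w) {a b u x y c ρ t0 : ℝ}
    (hxy : x ≤ y) (hx : x ∈ Icc a b) (hy : y ∈ Icc a b) (ht0 : t0 ∈ Icc a b)
    (hv0 : v t0 = 0) (hu : 0 ≤ u) (hc : 0 < c) (hρ : 0 < ρ)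
    (hwc : ∀ t ∈ Icc a b, c ≤ w t) :
    ‖W φ u x y‖ ≤ 6 / (c * ρ) + 2 * ρ := by
  have hφc : Continuous φ := continuous_iff_continuousAt.mpr fun t => (hφ t).continuousAt
  set m1 := max x (min y (t0 - ρ)) with hm1
  set m2 := max x (min y (t0 + ρ)) with hm2
  have hxm1 : x ≤ m1 := le_max_left _ _
  have hm2y : m2 ≤ y := max_le hxy (min_le_left _ _)
  have hm12 : m1 ≤ m2 := by
    apply max_le_max (le_refl _)
    apply min_le_min (le_refl _)
    linarith
  have hlen : m2 - m1 ≤ 2 * ρ := by
    simp only [hm1, hm2, max_def, min_def]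
    split_ifs <;> linarith
  have hleft : ‖W φ u x m1‖ ≤ 3 / (c * ρ) := by
    rcases le_or_gt (t0 - ρ) x with h | h
    · have : m1 = x := by
        simp only [hm1, max_def, min_def]
        split_ifs <;> linarith
      rw [this, W_self, norm_zero]
      positivity
    · have hm1' : m1 ≤ t0 - ρ := by
        simp only [hm1, max_def, min_def]
        split_ifs <;> linarith
      apply norm_W_le_first hφ hv hw hxm1 hu (by positivity)
      · intro t ht
        have := hwc t ⟨hx.1.trans ht.1, by linarith [ht.2, hy.2]⟩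
        linarith
      · right
        intro t ht
        have := v_lower hv hwc (s := t) (t := t0) ⟨hx.1.trans ht.1, by linarith [ht.2, hy.2]⟩
          ht0 (by linarith [ht.2])
        have h2 : c * ρ ≤ c * (t0 - t) := by
          apply mul_le_mul_of_nonneg_left _ hc.le
          linarith [ht.2]
        linarith
  have hmid : ‖W φ u m1 m2‖ ≤ 2 * ρ := (norm_W_le_len hu hm12).trans hlen
  have hright : ‖W φ u m2 y‖ ≤ 3 / (c * ρ) := by
    rcases le_or_gt y (t0 + ρ) with h | h
    · have : m2 = y := by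
        simp only [hm2, max_def, min_def]
        split_ifs <;> linarith
      rw [this, W_self, norm_zero]
      positivity
    · have hm2' : t0 + ρ ≤ m2 := by
        simp only [hm2, max_def, min_def]
        split_ifs <;> linarith
      apply norm_W_le_first hφ hv hw hm2y hu (by positivity)
      · intro t ht
        have := hwc t ⟨by linarith [ht.1, hx.1], by linarith [ht.2, hy.2]⟩
        linarith
      · left
        intro t ht
        have := v_lower hv hwc (s := t0) (t := t) ht0
          ⟨by linarith [ht.1, hx.1], by linarith [ht.2, hy.2]⟩ (by linarith [ht.1])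
        have h2 : c * ρ ≤ c * (t - t0) := by
          apply mul_le_mul_of_nonneg_left _ hc.le
          linarith [ht.1]
        linarith
  have hexp : ∀ s, x ≤ s → ‖((Real.exp (-(u * (s - x))) : ℝ) : ℂ)‖ ≤ 1 := by
    intro s hs
    rw [Complex.norm_real, Real.norm_eq_abs, abs_of_pos (Real.exp_pos _), Real.exp_le_one_iff]
    have : 0 ≤ u * (s - x) := mul_nonneg hu (by linarith)
    linarith
  have hexp' : ∀ s, m1 ≤ s → ‖((Real.exp (-(u * (s - m1))) : ℝ) : ℂ)‖ ≤ 1 := by
    intro s hs
    rw [Complex.norm_real, Real.norm_eq_abs, abs_of_pos (Real.exp_pos _), Real.exp_le_one_iff]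
    have : 0 ≤ u * (s - m1) := mul_nonneg hu (by linarith)
    linarith
  rw [W_split hφc u x m1 y, W_split hφc u m1 m2 y]
  have h1 : ‖((Real.exp (-(u * (m2 - m1))) : ℝ) : ℂ) * W φ u m2 y‖ ≤ 3 / (c * ρ) := by
    rw [norm_mul]
    calc _ ≤ 1 * (3 / (c * ρ)) :=
        mul_le_mul (hexp' _ hm12) hright (norm_nonneg _) zero_le_one
      _ = _ := one_mul _
  have h2 : ‖((Real.exp (-(u * (m1 - x))) : ℝ) : ℂ) *
      (W φ u m1 m2 + ((Real.exp (-(u * (m2 - m1))) : ℝ) : ℂ) * W φ u m2 y)‖
      ≤ 2 * ρ + 3 / (c * ρ) := by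
    rw [norm_mul]
    calc _ ≤ 1 * (2 * ρ + 3 / (c * ρ)) :=
        mul_le_mul (hexp _ hxm1) ((norm_add_le _ _).trans (add_le_add hmid h1))
          (norm_nonneg _) zero_le_one
      _ = _ := one_mul _
  refine (norm_add_le _ _).trans ?_
  have h3 : (6 : ℝ) / (c * ρ) = 3 / (c * ρ) + 3 / (c * ρ) := by ring
  linarith

/-- Decay in the damping away from the stationary point. -/
lemma norm_W_le_decay {φ v w : ℝ → ℝ} (hφ : ∀ t, HasDerivAt φ (v t) t)
    (hv : ∀ t, HasDerivAt v (w t) t) (hw : Continuous w) {a b u x y c ρ t0 : ℝ}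
    (hxy : x ≤ y) (hx : x ∈ Icc a b) (hy : y ∈ Icc a b) (ht0 : t0 ∈ Icc a b)
    (hv0 : v t0 = 0) (hu : 0 ≤ u) (hc : 0 < c) (hρ : 0 < ρ) (hr : x ≠ t0)
    (hwc : ∀ t ∈ Icc a b, c ≤ w t) :
    ‖W φ u x y‖ ≤ 6 / (c * |x - t0|) +
      Real.exp (-(u * |x - t0| / 2)) * (6 / (c * ρ) + 2 * ρ) := by
  have hφc : Continuous φ := continuous_iff_continuousAt.mpr fun t => (hφ t).continuousAt
  have hrpos : 0 < |x - t0| := abs_pos.mpr (sub_ne_zero.mpr hr)
  have hG : 0 ≤ Real.exp (-(u * |x - t0| / 2)) * (6 / (c * ρ) + 2 * ρ) := by positivity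
  rcases lt_or_gt_of_ne hr with h | h
  · -- x < t0
    have hr' : |x - t0| = t0 - x := by rw [abs_of_neg (by linarith)]; ring
    rw [hr'] at hrpos hG ⊢
    set m := min y (t0 - (t0 - x) / 2) with hm
    have hxm : x ≤ m := le_min hxy (by linarith)
    have hmy : m ≤ y := min_le_left _ _
    have hmt : m ≤ t0 - (t0 - x) / 2 := min_le_right _ _
    have h1 : ‖W φ u x m‖ ≤ 6 / (c * (t0 - x)) := by
      have h2 : (6 : ℝ) / (c * (t0 - x)) = 3 / (c * ((t0 - x) / 2)) := by
        field_simp; ring
      rw [h2]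
      apply norm_W_le_first hφ hv hw hxm hu (by positivity)
      · intro t ht
        have := hwc t ⟨hx.1.trans ht.1, by linarith [ht.2, hy.2]⟩
        linarith
      · right
        intro t ht
        have := v_lower hv hwc (s := t) (t := t0) ⟨hx.1.trans ht.1, by linarith [ht.2, hy.2]⟩
          ht0 (by linarith [ht.2])
        have h2 : c * ((t0 - x) / 2) ≤ c * (t0 - t) := by
          apply mul_le_mul_of_nonneg_left _ hc.le
          linarith [ht.2]
        linarith
    rw [W_split hφc u x m y]
    refine (norm_add_le _ _).trans (add_le_add h1 ?_)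
    rcases le_or_gt y (t0 - (t0 - x) / 2) with h3 | h3
    · have : m = y := min_eq_left h3
      rw [this, W_self, mul_zero, norm_zero]
      exact hG
    · have hmeq : m = t0 - (t0 - x) / 2 := min_eq_right h3.le
      rw [norm_mul, Complex.norm_real, Real.norm_eq_abs, abs_of_pos (Real.exp_pos _)]
      have h4 : -(u * (m - x)) = -(u * (t0 - x) / 2) := by rw [hmeq]; ring
      rw [h4]
      apply mul_le_mul_of_nonneg_left _ (Real.exp_pos _).le
      exact norm_W_le_second hφ hv hw hmy ⟨by linarith [hx.1], by linarith [hy.2]⟩ hy ht0 hv0 hu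
        hc hρ hwc
  · -- t0 < x
    have hr' : |x - t0| = x - t0 := abs_of_pos (by linarith)
    rw [hr'] at hrpos hG ⊢
    have h1 : ‖W φ u x y‖ ≤ 3 / (c * (x - t0)) := by
      apply norm_W_le_first hφ hv hw hxy hu (by positivity)
      · intro t ht
        have := hwc t ⟨by linarith [ht.1, hx.1], by linarith [ht.2, hy.2]⟩
        linarith
      · left
        intro t ht
        have := v_lower hv hwc (s := t0) (t := t) ht0
          ⟨by linarith [ht.1, hx.1], by linarith [ht.2, hy.2]⟩ (by linarith [ht.1])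
        have h2 : c * (x - t0) ≤ c * (t - t0) := by
          apply mul_le_mul_of_nonneg_left _ hc.le
          linarith [ht.1]
        linarith
    have h2 : (3 : ℝ) / (c * (x - t0)) ≤ 6 / (c * (x - t0)) := by
      gcongr
      norm_num
    linarith

lemma continuous_W_u {φ : ℝ → ℝ} (hφ : Continuous φ) (x y : ℝ) :
    Continuous fun u => W φ u x y := by
  unfold W
  apply intervalIntegral.continuous_parametric_intervalIntegral_of_continuous'
  unfold ker Function.uncurry
  fun_prop

/-- The integrated bound for indices with a stationary point. -/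
lemma integral_sq_W_le {φ v w : ℝ → ℝ} (hφ : ∀ t, HasDerivAt φ (v t) t)
    (hv : ∀ t, HasDerivAt v (w t) t) (hw : Continuous w) {a b x y c1 M t0 s0 S : ℝ}
    (hxy : x ≤ y) (hx : x ∈ Icc a b) (hy : y ∈ Icc a b) (ht0 : t0 ∈ Icc a b)
    (hv0 : v t0 = 0) (hc1 : 0 < c1) (hM : 0 < M) (hs0 : 0 < s0) (hS : s0 ≤ S)
    (hwc : ∀ t ∈ Icc a b, c1 * M ≤ w t) :
    ∫ u in s0..S, ‖W φ u x y‖ ^ 2 ≤
      2 * (48 / c1 + 2 * (6 / c1 + 2) ^ 2) / (M * (|x - t0| + 1 / S)) := by
  have hφc : Continuous φ := continuous_iff_continuousAt.mpr fun t => (hφ t).continuousAt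
  have hSpos : 0 < S := lt_of_lt_of_le hs0 hS
  set r := |x - t0| with hr
  have hr0 : 0 ≤ r := abs_nonneg _
  have hWc : Continuous fun u => ‖W φ u x y‖ ^ 2 := (continuous_W_u hφc x y).norm.pow 2
  set K1 : ℝ := 6 / c1 + 2 with hK1
  have hK1pos : 0 < K1 := by positivity
  set ρ : ℝ := 1 / Real.sqrt M with hρ
  have hsM : 0 < Real.sqrt M := Real.sqrt_pos.mpr hM
  have hsM2 : Real.sqrt M ^ 2 = M := Real.sq_sqrt hM.le
  have hρpos : 0 < ρ := by positivity
  have hG : 6 / (c1 * M * ρ) + 2 * ρ = K1 / Real.sqrt M := by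
    rw [hρ, hK1]
    nth_rewrite 1 [← hsM2]
    field_simp
  have hb1 : ∀ u, 0 ≤ u → ‖W φ u x y‖ ≤ K1 / Real.sqrt M := by
    intro u hu
    rw [← hG]
    exact norm_W_le_second hφ hv hw hxy hx hy ht0 hv0 hu (by positivity) hρpos hwc
  rcases le_or_gt r (1 / S) with h | h
  · have h1 : ∫ u in s0..S, ‖W φ u x y‖ ^ 2 ≤ ∫ u in s0..S, K1 ^ 2 / M := by
      apply intervalIntegral.integral_mono_on hS (hWc.intervalIntegrable _ _)
        (by simp)
      intro u hu
      have h2 := hb1 u (by linarith [hu.1])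
      calc ‖W φ u x y‖ ^ 2 ≤ (K1 / Real.sqrt M) ^ 2 := by gcongr
        _ = K1 ^ 2 / M := by rw [div_pow, hsM2]
    refine h1.trans ?_
    rw [intervalIntegral.integral_const, smul_eq_mul]
    have h3 : M * (r + 1 / S) ≤ M * (2 / S) := by
      apply mul_le_mul_of_nonneg_left _ hM.le
      have : (2 : ℝ) / S = 1 / S + 1 / S := by ring
      linarith
    have h4 : 0 < M * (r + 1 / S) := by positivity
    have h5 : (S - s0) * (K1 ^ 2 / M) ≤ S * (K1 ^ 2 / M) := by
      apply mul_le_mul_of_nonneg_right (by linarith) (by positivity)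
    refine h5.trans ?_
    have h6 : S * (K1 ^ 2 / M) = 2 * K1 ^ 2 / (M * (2 / S)) := by
      field_simp
    rw [h6]
    apply div_le_div₀ (by positivity) _ h4 h3
    have : 0 < 48 / c1 := by positivity
    nlinarith
  · have hrpos : 0 < r := lt_of_le_of_lt (by positivity) h
    have hne : x ≠ t0 := by
      intro h0
      rw [hr, h0, sub_self, abs_zero] at hrpos
      exact lt_irrefl _ hrpos
    set p : ℝ := 6 / (c1 * M * r) with hp
    have hppos : 0 < p := by positivity
    have hpt : ∀ u ∈ Icc s0 S, ‖W φ u x y‖ ^ 2 ≤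
        8 / (u + 1 / p) ^ 2 + 2 * (K1 ^ 2 / M) * Real.exp (-(r * (u - 0))) := by
      intro u hu
      have hupos : 0 < u := by linarith [hu.1]
      have h1 := norm_W_le_inv (φ := φ) hupos hxy
      have h2 := norm_W_le_decay hφ hv hw hxy hx hy ht0 hv0 hupos.le
        (by positivity : 0 < c1 * M) hρpos hne hwc
      rw [hG, ← hr, ← hp] at h2
      set e := Real.exp (-(u * r / 2)) * (K1 / Real.sqrt M) with he
      have hepos : 0 < e := by positivity
      have he2 : e ^ 2 = (K1 ^ 2 / M) * Real.exp (-(r * (u - 0))) := by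
        rw [he, mul_pow, div_pow, hsM2, ← Real.exp_nat_mul]
        rw [mul_comm]
        congr 2
        push_cast
        ring
      have h3 : ‖W φ u x y‖ ≤ 2 / (u + 1 / p) + e := by
        rcases le_or_gt (1 / u) p with h4 | h4
        · have h5 : 1 / p ≤ u := by
            rw [div_le_iff₀ hppos]
            rw [div_le_iff₀ hupos] at h4
            linarith
          have h6 : 1 / u ≤ 2 / (u + 1 / p) := by
            rw [div_le_div_iff₀ hupos (by positivity)]
            linarith
          linarith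
        · have h5 : u ≤ 1 / p := by
            rw [le_div_iff₀ hppos]
            rw [lt_div_iff₀ hupos] at h4
            linarith
          have h6 : p ≤ 2 / (u + 1 / p) := by
            rw [le_div_iff₀ (by positivity)]
            have : p * (1 / p) = 1 := by field_simp
            have : p * u ≤ 1 := by
              rw [← this]
              exact mul_le_mul_of_nonneg_left h5 hppos.le
            nlinarith
          linarith
      have h7 : ‖W φ u x y‖ ^ 2 ≤ (2 / (u + 1 / p) + e) ^ 2 := by
        gcongr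
      refine h7.trans ?_
      have h8 : (2 / (u + 1 / p) + e) ^ 2 ≤ 2 * (2 / (u + 1 / p)) ^ 2 + 2 * e ^ 2 := by
        nlinarith [sq_nonneg (2 / (u + 1 / p) - e)]
      refine h8.trans (le_of_eq ?_)
      rw [he2]
      have : 0 < u + 1 / p := by positivity
      field_simp
      ring
    have hq : ∀ u ∈ uIcc s0 S, HasDerivAt (fun u => -8 / (u + 1 / p)) (8 / (u + 1 / p) ^ 2) u := by
      intro u hu
      rw [uIcc_of_le hS] at hu
      have hupos : 0 < u := by linarith [hu.1]
      have hne : u + 1 / p ≠ 0 := by positivity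
      have h1 := ((hasDerivAt_id u).add_const (1 / p)).inv hne
      have h2 := h1.const_mul (-8)
      refine (h2.congr_deriv ?_)
      simp
      ring
    have hci : IntervalIntegrable (fun u => 8 / (u + 1 / p) ^ 2) volume s0 S := by
      apply ContinuousOn.intervalIntegrable
      apply ContinuousOn.div continuousOn_const (by fun_prop)
      intro u hu
      rw [uIcc_of_le hS] at hu
      have hupos : 0 < u := by linarith [hu.1]
      positivity
    have hei : IntervalIntegrable
        (fun u => 2 * (K1 ^ 2 / M) * Real.exp (-(r * (u - 0)))) volume s0 S :=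
      (by fun_prop : Continuous fun u => 2 * (K1 ^ 2 / M) * Real.exp (-(r * (u - 0)))).intervalIntegrable _ _
    have h1 : ∫ u in s0..S, ‖W φ u x y‖ ^ 2 ≤
        ∫ u in s0..S, (8 / (u + 1 / p) ^ 2 + 2 * (K1 ^ 2 / M) * Real.exp (-(r * (u - 0)))) := by
      apply intervalIntegral.integral_mono_on hS (hWc.intervalIntegrable _ _) (hci.add hei)
      exact hpt
    refine h1.trans ?_
    rw [intervalIntegral.integral_add hci hei, intervalIntegral.integral_const_mul,
      intervalIntegral.integral_eq_sub_of_hasDerivAt hq hci]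
    have h2 : -8 / (S + 1 / p) - -8 / (s0 + 1 / p) ≤ 8 * p := by
      have h3 : 0 < 8 / (S + 1 / p) := by positivity
      have h4 : 8 / (s0 + 1 / p) ≤ 8 / (1 / p) := by
        gcongr
        linarith
      have h5 : 8 / (1 / p) = 8 * p := by field_simp
      rw [neg_div, neg_div]
      linarith
    have h3 : ∫ u in s0..S, Real.exp (-(r * (u - 0))) ≤ 1 / r := by
      have h4 : ∫ u in s0..S, Real.exp (-(r * (u - 0))) ≤ ∫ u in (0:ℝ)..S, Real.exp (-(r * (u - 0))) := by
        rw [← intervalIntegral.integral_add_adjacent_intervals (a := 0) (b := s0) (c := S)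
          ((by fun_prop : Continuous fun u => Real.exp (-(r * (u - 0)))).intervalIntegrable _ _)
          ((by fun_prop : Continuous fun u => Real.exp (-(r * (u - 0)))).intervalIntegrable _ _)]
        have : 0 ≤ ∫ u in (0:ℝ)..s0, Real.exp (-(r * (u - 0))) :=
          intervalIntegral.integral_nonneg hs0.le (fun u _ => (Real.exp_pos _).le)
        linarith
      refine h4.trans ?_
      rw [integral_exp_window hrpos.ne']
      gcongr
      linarith [Real.exp_pos (-(r * (S - 0)))]
    have h4 : 2 * (K1 ^ 2 / M) * ∫ u in s0..S, Real.exp (-(r * (u - 0))) ≤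
        2 * (K1 ^ 2 / M) * (1 / r) := mul_le_mul_of_nonneg_left h3 (by positivity)
    refine (add_le_add h2 h4).trans ?_
    have h5 : 8 * p + 2 * (K1 ^ 2 / M) * (1 / r) = (48 / c1 + 2 * K1 ^ 2) / (M * r) := by
      rw [hp]; field_simp; ring
    rw [h5]
    have h6 : (48 / c1 + 2 * K1 ^ 2) / (M * r) = 2 * (48 / c1 + 2 * K1 ^ 2) / (M * (2 * r)) := by
      field_simp
    rw [h6]
    apply div_le_div₀ (by positivity) (le_refl _) (by positivity)
    apply mul_le_mul_of_nonneg_left _ hM.le
    linarith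

end H17Arc
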