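import Pool.Agent.H17Arc.Non

set_option autoImplicit false

open MeasureTheory Set

namespace H17Arc

/-- A planar curve `z` with tangent angle `θ` and curvature `κ` between `κ0 > 0` and `κ1`. -/
structure ArcData (κ θ : ℝ → ℝ) (z : ℝ → ℂ) (κ0 κ1 : ℝ) : Prop where
  κc : Continuous κ
  pos : 0 < κ0
  lo : ∀ t, κ0 ≤ κ t
  hi : ∀ t, κ t ≤ κ1
  dθ : ∀ t, HasDerivAt θ (κ t) t
  dz : ∀ t, HasDerivAt z (Complex.exp ((θ t : ℂ) * Complex.I)) t

/-- the phase of the frequency `l` -/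
noncomputable def phi (z : ℝ → ℂ) (l : ℂ) (t : ℝ) : ℝ :=
  2 * Real.pi * ((starRingEnd ℂ) l * z t).re

noncomputable def vel (θ : ℝ → ℝ) (l : ℂ) (t : ℝ) : ℝ :=
  2 * Real.pi * ‖l‖ * Real.cos (θ t - l.arg)

noncomputable def acc (κ θ : ℝ → ℝ) (l : ℂ) (t : ℝ) : ℝ :=
  -(2 * Real.pi * ‖l‖ * (κ t * Real.sin (θ t - l.arg)))

lemma re_conj_mul_exp (l : ℂ) (s : ℝ) :
    ((starRingEnd ℂ) l * Complex.exp ((s : ℂ) * Complex.I)).re = ‖l‖ * Real.cos (s - l.arg) := by
  have h : (starRingEnd ℂ) l = (‖l‖ : ℂ) * Complex.exp (((-l.arg : ℝ) : ℂ) * Complex.I) := by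
    conv_lhs => rw [← Complex.norm_mul_exp_arg_mul_I l]
    rw [map_mul, Complex.conj_ofReal, ← Complex.exp_conj]
    congr 2
    simp
  rw [h, mul_assoc, ← Complex.exp_add, ← add_mul]
  have h2 : (((-l.arg : ℝ) : ℂ) + (s : ℂ)) = ((s - l.arg : ℝ) : ℂ) := by push_cast; ring
  rw [h2, Complex.re_ofReal_mul, Complex.exp_ofReal_mul_I_re]

variable {κ θ : ℝ → ℝ} {z : ℝ → ℂ} {κ0 κ1 : ℝ}

lemma ArcData.dphi (A : ArcData κ θ z κ0 κ1) (l : ℂ) (t : ℝ) :
    HasDerivAt (phi z l) (vel θ l t) t := by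
  unfold phi vel
  have h1 := (A.dz t).const_mul ((starRingEnd ℂ) l)
  have h2 := (Complex.reCLM.hasFDerivAt.comp_hasDerivAt t h1).const_mul (2 * Real.pi)
  refine h2.congr_deriv ?_
  rw [Complex.reCLM_apply, re_conj_mul_exp]
  ring

lemma ArcData.dvel (A : ArcData κ θ z κ0 κ1) (l : ℂ) (t : ℝ) :
    HasDerivAt (vel θ l) (acc κ θ l t) t := by
  unfold vel acc
  have h1 := (((A.dθ t).sub_const l.arg).cos).const_mul (2 * Real.pi * ‖l‖)
  refine h1.congr_deriv ?_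
  ring

lemma ArcData.θc (A : ArcData κ θ z κ0 κ1) : Continuous θ :=
  continuous_iff_continuousAt.mpr fun t => (A.dθ t).continuousAt

lemma ArcData.zc (A : ArcData κ θ z κ0 κ1) : Continuous z :=
  continuous_iff_continuousAt.mpr fun t => (A.dz t).continuousAt

lemma ArcData.phic (A : ArcData κ θ z κ0 κ1) (l : ℂ) : Continuous (phi z l) :=
  continuous_iff_continuousAt.mpr fun t => (A.dphi l t).continuousAt

lemma ArcData.accc (A : ArcData κ θ z κ0 κ1) (l : ℂ) : Continuous (acc κ θ l) := by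
  have h1 := A.κc
  have h2 := A.θc
  unfold acc
  fun_prop

lemma ArcData.κ1pos (A : ArcData κ θ z κ0 κ1) : 0 < κ1 :=
  lt_of_lt_of_le A.pos ((A.lo 0).trans (A.hi 0))

lemma ArcData.κ01 (A : ArcData κ θ z κ0 κ1) : κ0 ≤ κ1 := (A.lo 0).trans (A.hi 0)

lemma ArcData.θlo (A : ArcData κ θ z κ0 κ1) {s t : ℝ} (hst : s ≤ t) :
    κ0 * (t - s) ≤ θ t - θ s :=
  v_lower A.dθ (a := s) (b := t) (fun r _ => A.lo r) ⟨le_refl _, hst⟩ ⟨hst, le_refl _⟩ hst

lemma ArcData.θhi (A : ArcData κ θ z κ0 κ1) {s t : ℝ} (hst : s ≤ t) :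
    θ t - θ s ≤ κ1 * (t - s) :=
  v_upper A.dθ (a := s) (b := t) (fun r _ => A.hi r) ⟨le_refl _, hst⟩ ⟨hst, le_refl _⟩ hst

/-- data of a frequency with a stationary point -/
lemma ArcData.stat_data (A : ArcData κ θ z κ0 κ1) {a b t0 : ℝ} (hang : κ1 * (b - a) ≤ Real.pi / 3)
    {l : ℂ} (ht0 : t0 ∈ Icc a b) (h0 : Real.cos (θ t0 - l.arg) = 0) :
    ∃ ψ v w : ℝ → ℝ, (∀ t, HasDerivAt ψ (v t) t) ∧ (∀ t, HasDerivAt v (w t) t) ∧
      Continuous w ∧ (∀ u x y, x ≤ y → ‖W ψ u x y‖ = ‖W (phi z l) u x y‖) ∧ v t0 = 0 ∧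
      ∀ t ∈ Icc a b, Real.pi * κ0 * ‖l‖ ≤ w t ∧ w t ≤ 2 * Real.pi * κ1 * ‖l‖ := by
  have hpi := Real.pi_pos
  have hdev : ∀ t ∈ Icc a b, |θ t - θ t0| ≤ Real.pi / 3 := by
    intro t ht
    rcases le_total t0 t with h | h
    · have h1 := A.θlo h
      have h2 := A.θhi h
      have h3 : κ1 * (t - t0) ≤ κ1 * (b - a) :=
        mul_le_mul_of_nonneg_left (by linarith [ht.2, ht0.1]) A.κ1pos.le
      have h4 : 0 ≤ κ0 * (t - t0) := mul_nonneg A.pos.le (by linarith)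
      rw [abs_of_nonneg (by linarith)]
      linarith
    · have h1 := A.θlo h
      have h2 := A.θhi h
      have h3 : κ1 * (t0 - t) ≤ κ1 * (b - a) :=
        mul_le_mul_of_nonneg_left (by linarith [ht.1, ht0.2]) A.κ1pos.le
      have h4 : 0 ≤ κ0 * (t0 - t) := mul_nonneg A.pos.le (by linarith)
      rw [abs_of_nonpos (by linarith)]
      linarith
  have hcos : ∀ t ∈ Icc a b, 1 / 2 ≤ Real.cos (θ t - θ t0) := by
    intro t ht
    rw [← Real.cos_abs, ← Real.cos_pi_div_three]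
    apply Real.cos_le_cos_of_nonneg_of_le_pi (abs_nonneg _) (by linarith) (hdev t ht)
  have hsin : ∀ t, Real.sin (θ t - l.arg) = Real.cos (θ t - θ t0) * Real.sin (θ t0 - l.arg) := by
    intro t
    have : θ t - l.arg = (θ t - θ t0) + (θ t0 - l.arg) := by ring
    rw [this, Real.sin_add, h0]
    ring
  have hs1 : Real.sin (θ t0 - l.arg) = 1 ∨ Real.sin (θ t0 - l.arg) = -1 := by
    have := Real.sin_sq_add_cos_sq (θ t0 - l.arg)
    rw [h0] at this
    have h2 : (Real.sin (θ t0 - l.arg) - 1) * (Real.sin (θ t0 - l.arg) + 1) = 0 := by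
      linear_combination this
    rcases mul_eq_zero.mp h2 with h3 | h3
    · left; linarith
    · right; linarith
  have hbound : ∀ t ∈ Icc a b, Real.pi * κ0 * ‖l‖ ≤
      2 * Real.pi * ‖l‖ * (κ t * Real.cos (θ t - θ t0)) ∧
      2 * Real.pi * ‖l‖ * (κ t * Real.cos (θ t - θ t0)) ≤ 2 * Real.pi * κ1 * ‖l‖ := by
    intro t ht
    have h1 := hcos t ht
    have h2 := Real.cos_le_one (θ t - θ t0)
    have h3 := A.lo t
    have h4 := A.hi t
    have h5 := A.pos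
    have h6 : κ0 * (1 / 2) ≤ κ t * Real.cos (θ t - θ t0) :=
      mul_le_mul h3 h1 (by norm_num) (by linarith)
    have h7 : κ t * Real.cos (θ t - θ t0) ≤ κ1 * 1 :=
      mul_le_mul h4 h2 (by linarith) A.κ1pos.le
    have h8 : 0 ≤ 2 * Real.pi * ‖l‖ := by positivity
    constructor
    · calc Real.pi * κ0 * ‖l‖ = 2 * Real.pi * ‖l‖ * (κ0 * (1 / 2)) := by ring
        _ ≤ _ := mul_le_mul_of_nonneg_left h6 h8
    · calc _ ≤ 2 * Real.pi * ‖l‖ * (κ1 * 1) := mul_le_mul_of_nonneg_left h7 h8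
        _ = _ := by ring
  rcases hs1 with hs | hs
  · refine ⟨fun t => -phi z l t, fun t => -vel θ l t, fun t => -acc κ θ l t,
      fun t => (A.dphi l t).neg, fun t => (A.dvel l t).neg, (A.accc l).neg, ?_, ?_, ?_⟩
    · intro u x y hxy
      exact norm_W_neg hxy
    · simp [vel, h0]
    · intro t ht
      have h1 := hbound t ht
      have h2 : -acc κ θ l t = 2 * Real.pi * ‖l‖ * (κ t * Real.cos (θ t - θ t0)) := by
        unfold acc
        rw [hsin t, hs]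
        ring
      show _ ≤ -acc κ θ l t ∧ -acc κ θ l t ≤ _
      rw [h2]
      exact h1
  · refine ⟨phi z l, vel θ l, acc κ θ l, A.dphi l, A.dvel l, A.accc l, ?_, ?_, ?_⟩
    · intro u x y _
      rfl
    · simp [vel, h0]
    · intro t ht
      have h1 := hbound t ht
      have h2 : acc κ θ l t = 2 * Real.pi * ‖l‖ * (κ t * Real.cos (θ t - θ t0)) := by
        unfold acc
        rw [hsin t, hs]
        ring
      rw [h2]
      exact h1

/-- upper bound for stationary frequencies -/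
lemma ArcData.stat_upper (A : ArcData κ θ z κ0 κ1) {a b t0 : ℝ}
    (hang : κ1 * (b - a) ≤ Real.pi / 3)
    {l : ℂ} (hl : 0 < ‖l‖) (ht0 : t0 ∈ Icc a b) (h0 : Real.cos (θ t0 - l.arg) = 0)
    {x y s0 S : ℝ} (hxy : x ≤ y) (hx : x ∈ Icc a b) (hy : y ∈ Icc a b) (hs0 : 0 < s0)
    (hS : s0 ≤ S) :
    ∫ u in s0..S, ‖W (phi z l) u x y‖ ^ 2 ≤
      2 * (48 / (Real.pi * κ0) + 2 * (6 / (Real.pi * κ0) + 2) ^ 2) /
        (‖l‖ * (|x - t0| + 1 / S)) := by
  obtain ⟨ψ, v, w, h1, h2, h3, h4, h5, h6⟩ := A.stat_data hang ht0 h0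
  have h7 := integral_sq_W_le (a := a) (b := b) (x := x) (y := y) (c1 := Real.pi * κ0)
    (M := ‖l‖) (t0 := t0) (s0 := s0) (S := S) h1 h2 h3 hxy hx hy ht0 h5
    (mul_pos Real.pi_pos A.pos) hl hs0 hS (fun t ht => (h6 t ht).1)
  have h8 : ∀ u, ‖W ψ u x y‖ = ‖W (phi z l) u x y‖ := fun u => h4 u x y hxy
  simp_rw [h8] at h7
  exact h7

/-- lower bound for stationary frequencies -/
lemma ArcData.stat_lower (A : ArcData κ θ z κ0 κ1) {a b t0 h : ℝ} (hh : 0 < h)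
    (hang : κ1 * (b - a) ≤ Real.pi / 3)
    {l : ℂ} (hl : 1 / (Real.pi * κ1 * h ^ 2) ≤ ‖l‖) (hta : a + h ≤ t0) (htb : t0 + h ≤ b)
    (h0 : Real.cos (θ t0 - l.arg) = 0) :
    (Real.pi * κ0) ^ 6 / (32 * Real.pi ^ 4 * (2 * Real.pi * κ1) ^ 7) / ‖l‖ ≤
      ‖W (phi z l) 0 a b‖ ^ 2 := by
  have hpi := Real.pi_pos
  have hκ0 := A.pos
  have hκ1 := A.κ1pos
  have ht0 : t0 ∈ Icc a b := ⟨by linarith, by linarith⟩
  have hlpos : 0 < ‖l‖ := lt_of_lt_of_le (by positivity) hl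
  obtain ⟨ψ, v, w, h1, h2, h3, h4, h5, h6⟩ := A.stat_data hang ht0 h0
  set A2 : ℝ := 2 * Real.pi * κ1 * ‖l‖ with hA2
  have hA2pos : 0 < A2 := by positivity
  set δ : ℝ := Real.sqrt (2 / A2) with hδ
  have hδpos : 0 < δ := Real.sqrt_pos.mpr (by positivity)
  have hδ2 : δ ^ 2 = 2 / A2 := Real.sq_sqrt (by positivity)
  have hδh : δ ≤ h := by
    have h7 : δ ^ 2 ≤ h ^ 2 := by
      rw [hδ2, div_le_iff₀ hA2pos, hA2]
      rw [div_le_iff₀ (by positivity)] at hl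
      nlinarith
    exact le_of_sq_le_sq h7 hh.le
  have h7 := norm_W_ge (a := a) (b := b) (A1 := Real.pi * κ0 * ‖l‖) (A2 := A2) (δ := δ)
    h1 h2 h3 h5 (by positivity) h6 hδpos (by linarith) (by linarith)
    (by rw [hδ2]; field_simp; norm_num)
  rw [h4 0 a b (by linarith)] at h7
  have h8 : (((Real.pi * κ0 * ‖l‖) ^ 3 / (2 * Real.pi ^ 2 * A2 ^ 2)) * (δ ^ 3 / 8)) ^ 2 ≤
      ‖W (phi z l) 0 a b‖ ^ 2 := by gcongr
  refine le_trans (le_of_eq ?_) h8
  have h9 : (((Real.pi * κ0 * ‖l‖) ^ 3 / (2 * Real.pi ^ 2 * A2 ^ 2)) * (δ ^ 3 / 8)) ^ 2 =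
      (Real.pi * κ0 * ‖l‖) ^ 6 / (4 * Real.pi ^ 4 * A2 ^ 4) * ((δ ^ 2) ^ 3 / 64) := by ring
  rw [h9, hδ2, hA2]
  field_simp
  ring

/-- bounds for non-stationary frequencies -/
lemma ArcData.non_bounds (A : ArcData κ θ z κ0 κ1) {p q c : ℝ} (hc : 0 < c) (hc1 : c ≤ 1)
    {l : ℂ} (hl : 0 < ‖l‖) (hcos : ∀ t ∈ Icc p q, c ≤ |Real.cos (θ t - l.arg)|)
    {x y u ρ : ℝ} (hxy : x ≤ y) (hx : p ≤ x) (hy : y ≤ q) (hu : 0 < u) (hρ1 : ρ ≤ 1)
    (hρ : Real.exp (-(u * (y - x))) / c + (κ1 / c) / (c * u) ≤ ρ) :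
    (1 - ρ) ^ 2 * (1 / (u ^ 2 + |vel θ l x| ^ 2)) ≤ ‖W (phi z l) u x y‖ ^ 2 ∧
      ‖W (phi z l) u x y‖ ^ 2 ≤ (1 + ρ) ^ 2 * (1 / (u ^ 2 + |vel θ l x| ^ 2)) := by
  have hpi := Real.pi_pos
  have hκ1 := A.κ1pos
  have hM : 0 < 2 * Real.pi * ‖l‖ := by positivity
  have hvel : ∀ t, |vel θ l t| = 2 * Real.pi * ‖l‖ * |Real.cos (θ t - l.arg)| := by
    intro t
    unfold vel
    rw [abs_mul, abs_of_pos hM]
  have hge : ∀ t ∈ Icc x y, 2 * Real.pi * ‖l‖ * c ≤ |vel θ l t| := by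
    intro t ht
    rw [hvel t]
    exact mul_le_mul_of_nonneg_left (hcos t ⟨by linarith [ht.1], by linarith [ht.2]⟩) hM.le
  have hx' : x ∈ Icc x y := ⟨le_refl _, hxy⟩
  have hvx : vel θ l x ≠ 0 := by
    have := hge x hx'
    have h2 : 0 < 2 * Real.pi * ‖l‖ * c := by positivity
    exact abs_pos.mp (lt_of_lt_of_le h2 this)
  rw [sq_abs]
  refine nonstat_bounds (A.dphi l) (A.dvel l) (A.accc l) hxy hu hc hc1 (by positivity) hvx ?_ ?_
    hρ1 hρ
  · intro t ht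
    refine le_trans ?_ (hge t ht)
    rw [hvel x]
    have h1 := Real.abs_cos_le_one (θ x - l.arg)
    calc c * (2 * Real.pi * ‖l‖ * |Real.cos (θ x - l.arg)|)
        ≤ c * (2 * Real.pi * ‖l‖ * 1) := by gcongr
      _ = _ := by ring
  · intro t ht
    have h1 := hge t ht
    have h2 : |acc κ θ l t| ≤ 2 * Real.pi * ‖l‖ * κ1 := by
      unfold acc
      rw [abs_neg, abs_mul, abs_of_pos hM, abs_mul]
      apply mul_le_mul_of_nonneg_left _ hM.le
      have h3 := A.lo t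
      have h4 := A.hi t
      have h5 := A.pos
      rw [abs_of_nonneg (by linarith)]
      have h6 := Real.abs_sin_le_one (θ t - l.arg)
      calc κ t * |Real.sin (θ t - l.arg)| ≤ κ1 * 1 :=
          mul_le_mul h4 h6 (abs_nonneg _) hκ1.le
        _ = κ1 := mul_one _
    refine h2.trans ?_
    calc 2 * Real.pi * ‖l‖ * κ1 = κ1 / c * (2 * Real.pi * ‖l‖ * c) := by field_simp
      _ ≤ κ1 / c * |vel θ l t| := mul_le_mul_of_nonneg_left h1 (by positivity)

/-- no stationary point on the larger interval gives a quantitative bound on the smaller one -/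
lemma ArcData.dichotomy (A : ArcData κ θ z κ0 κ1) {a h : ℝ} (hh : 0 < h)
    (hang : κ1 * (8 * h) ≤ Real.pi / 3) {l : ℂ}
    (hno : ∀ t ∈ Icc (a + h) (a + 7 * h), Real.cos (θ t - l.arg) ≠ 0) :
    ∀ t ∈ Icc (a + 2 * h) (a + 6 * h), Real.sin (κ0 * h) ≤ |Real.cos (θ t - l.arg)| := by
  intro t ht
  have hκ0 := A.pos
  have hθc := A.θc
  have hη : 0 < κ0 * h := by positivity
  have hpi := Real.pi_pos
  have hη2 : κ0 * h ≤ Real.pi / 3 := by
    have := mul_le_mul_of_nonneg_right A.κ01 hh.le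
    have h2 : 0 ≤ κ1 * h := mul_nonneg A.κ1pos.le hh.le
    linarith
  -- points with angle shifted by ±η
  obtain ⟨s1, hs1, hs1e⟩ : ∃ s ∈ Icc t (t + h), θ s = θ t + κ0 * h := by
    have h1 := A.θlo (s := t) (t := t + h) (by linarith)
    have h2 := intermediate_value_Icc (by linarith : t ≤ t + h) hθc.continuousOn
    have h3 : θ t + κ0 * h ∈ Icc (θ t) (θ (t + h)) := by
      have e : t + h - t = h := by ring
      rw [e] at h1
      exact ⟨by linarith, by linarith⟩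
    obtain ⟨s, hs, hse⟩ := h2 h3
    exact ⟨s, hs, hse⟩
  obtain ⟨s2, hs2, hs2e⟩ : ∃ s ∈ Icc (t - h) t, θ s = θ t - κ0 * h := by
    have h1 := A.θlo (s := t - h) (t := t) (by linarith)
    have h2 := intermediate_value_Icc (by linarith : t - h ≤ t) hθc.continuousOn
    have h3 : θ t - κ0 * h ∈ Icc (θ (t - h)) (θ t) := by
      have e : t - (t - h) = h := by ring
      rw [e] at h1
      exact ⟨by linarith, by linarith⟩
    obtain ⟨s, hs, hse⟩ := h2 h3
    exact ⟨s, hs, hse⟩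
  have hs12 : s2 ≤ s1 := hs2.2.trans hs1.1
  have hprod : 0 < Real.cos (θ s1 - l.arg) * Real.cos (θ s2 - l.arg) := by
    by_contra hcon
    push Not at hcon
    have hcc : ContinuousOn (fun s => Real.cos (θ s - l.arg)) (Icc s2 s1) := by fun_prop
    have hz : ∃ s ∈ Icc s2 s1, Real.cos (θ s - l.arg) = 0 := by
      rcases le_total 0 (Real.cos (θ s1 - l.arg)) with h1 | h1
      · have h2 : Real.cos (θ s2 - l.arg) ≤ 0 := by
          by_contra h3
          push Not at h3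
          rcases h1.lt_or_eq with h4 | h4
          · have := mul_pos h4 h3
            linarith
          · exact hno s1 ⟨by linarith [hs1.1, ht.1], by linarith [hs1.2, ht.2]⟩ h4.symm
        obtain ⟨s, hs, hse⟩ := intermediate_value_Icc hs12 hcc ⟨h2, h1⟩
        exact ⟨s, hs, hse⟩
      · have h2 : 0 ≤ Real.cos (θ s2 - l.arg) := by
          by_contra h3
          push Not at h3
          rcases h1.lt_or_eq with h4 | h4
          · have := mul_pos_of_neg_of_neg h4 h3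
            linarith
          · exact hno s1 ⟨by linarith [hs1.1, ht.1], by linarith [hs1.2, ht.2]⟩ h4
        obtain ⟨s, hs, hse⟩ := intermediate_value_Icc' hs12 hcc ⟨h1, h2⟩
        exact ⟨s, hs, hse⟩
    obtain ⟨s, hs, hse⟩ := hz
    exact hno s ⟨by linarith [hs.1, hs2.1, ht.1], by linarith [hs.2, hs1.2, ht.2]⟩ hse
  have h1 : Real.cos (θ s1 - l.arg) * Real.cos (θ s2 - l.arg) =
      Real.cos (θ t - l.arg) ^ 2 - Real.sin (κ0 * h) ^ 2 := by
    rw [hs1e, hs2e]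
    have e1 : θ t + κ0 * h - l.arg = (θ t - l.arg) + κ0 * h := by ring
    have e2 : θ t - κ0 * h - l.arg = (θ t - l.arg) - κ0 * h := by ring
    rw [e1, e2]
    have key : ∀ A B : ℝ, Real.cos (A + B) * Real.cos (A - B) =
        Real.cos A ^ 2 - Real.sin B ^ 2 := by
      intro A B
      rw [Real.cos_add, Real.cos_sub]
      have h2 := Real.sin_sq_add_cos_sq A
      have h3 := Real.sin_sq_add_cos_sq B
      linear_combination Real.cos A ^ 2 * h3 - Real.sin B ^ 2 * h2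
    exact key _ _
  rw [h1] at hprod
  have hsin : 0 ≤ Real.sin (κ0 * h) := Real.sin_nonneg_of_nonneg_of_le_pi hη.le (by linarith)
  have h2 : Real.sin (κ0 * h) ^ 2 ≤ |Real.cos (θ t - l.arg)| ^ 2 := by
    rw [sq_abs]; linarith
  exact le_of_sq_le_sq h2 (abs_nonneg _)

/-- the trigonometric gain at an intermediate point -/
lemma ArcData.gain (A : ArcData κ θ z κ0 κ1) {a h x : ℝ} (hh : 0 < h)
    (hang : κ1 * (8 * h) ≤ Real.pi / 3) (hx : x ∈ Icc (a + 3 * h) (a + 4 * h)) :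
    ∃ α β : ℝ, 0 < α ∧ 0 < β ∧
      1 + 2 * Real.sin (κ0 * h) * (1 - Real.cos (κ0 * h)) ≤ α + β ∧
      ∀ l : ℂ, (∀ t ∈ Icc (a + 2 * h) (a + 6 * h), Real.cos (θ t - l.arg) ≠ 0) →
        |vel θ l x| = α * |vel θ l (a + 2 * h)| + β * |vel θ l (a + 5 * h)| := by
  have hκ0 := A.pos
  have hθc := A.θc
  have hpi := Real.pi_pos
  set θ1 := θ (a + 2 * h) with hθ1
  set θ3 := θ (a + 5 * h) with hθ3
  have hA : κ0 * h ≤ θ x - θ1 := by
    have h1 := A.θlo (s := a + 2 * h) (t := x) (by linarith [hx.1])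
    have h2 : κ0 * h ≤ κ0 * (x - (a + 2 * h)) :=
      mul_le_mul_of_nonneg_left (by linarith [hx.1]) hκ0.le
    linarith
  have hB : κ0 * h ≤ θ3 - θ x := by
    have h1 := A.θlo (s := x) (t := a + 5 * h) (by linarith [hx.2])
    have h2 : κ0 * h ≤ κ0 * (a + 5 * h - x) :=
      mul_le_mul_of_nonneg_left (by linarith [hx.2]) hκ0.le
    linarith
  have hAB : θ3 - θ1 ≤ Real.pi / 3 := by
    have h1 := A.θhi (s := a + 2 * h) (t := a + 5 * h) (by linarith)
    have h2 : κ1 * (a + 5 * h - (a + 2 * h)) ≤ κ1 * (8 * h) :=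
      mul_le_mul_of_nonneg_left (by linarith) A.κ1pos.le
    linarith
  have hη : 0 < κ0 * h := by positivity
  have hsA : Real.sin (κ0 * h) ≤ Real.sin (θ x - θ1) :=
    Real.sin_le_sin_of_le_of_le_pi_div_two (by linarith) (by linarith) hA
  have hsB : Real.sin (κ0 * h) ≤ Real.sin (θ3 - θ x) :=
    Real.sin_le_sin_of_le_of_le_pi_div_two (by linarith) (by linarith) hB
  have hcA : Real.cos (θ x - θ1) ≤ Real.cos (κ0 * h) :=
    Real.cos_le_cos_of_nonneg_of_le_pi hη.le (by linarith) hA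
  have hcB : Real.cos (θ3 - θ x) ≤ Real.cos (κ0 * h) :=
    Real.cos_le_cos_of_nonneg_of_le_pi hη.le (by linarith) hB
  have hsη : 0 < Real.sin (κ0 * h) := Real.sin_pos_of_pos_of_lt_pi hη (by linarith)
  have hcη : Real.cos (κ0 * h) ≤ 1 := Real.cos_le_one _
  have hs13 : 0 < Real.sin (θ3 - θ1) :=
    Real.sin_pos_of_pos_of_lt_pi (by linarith) (by linarith)
  have hs13' : Real.sin (θ3 - θ1) ≤ 1 := Real.sin_le_one _
  refine ⟨Real.sin (θ3 - θ x) / Real.sin (θ3 - θ1), Real.sin (θ x - θ1) / Real.sin (θ3 - θ1),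
    div_pos (by linarith) hs13, div_pos (by linarith) hs13, ?_, ?_⟩
  · rw [← add_div, le_div_iff₀ hs13]
    have h1 : Real.sin (θ3 - θ1) = Real.sin (θ3 - θ x) * Real.cos (θ x - θ1) +
        Real.cos (θ3 - θ x) * Real.sin (θ x - θ1) := by
      rw [← Real.sin_add]; congr 1; ring
    have h2 : 0 ≤ 2 * Real.sin (κ0 * h) * (1 - Real.cos (κ0 * h)) :=
      mul_nonneg (by positivity) (by linarith)
    have h3 : 2 * Real.sin (κ0 * h) * (1 - Real.cos (κ0 * h)) * Real.sin (θ3 - θ1) ≤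
        2 * Real.sin (κ0 * h) * (1 - Real.cos (κ0 * h)) := by
      calc _ ≤ 2 * Real.sin (κ0 * h) * (1 - Real.cos (κ0 * h)) * 1 :=
          mul_le_mul_of_nonneg_left hs13' h2
        _ = _ := mul_one _
    have h4 : Real.sin (κ0 * h) * (1 - Real.cos (κ0 * h)) ≤
        Real.sin (θ3 - θ x) * (1 - Real.cos (θ x - θ1)) :=
      mul_le_mul hsB (by linarith) (by linarith) (by linarith)
    have h5 : Real.sin (κ0 * h) * (1 - Real.cos (κ0 * h)) ≤
        Real.sin (θ x - θ1) * (1 - Real.cos (θ3 - θ x)) :=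
      mul_le_mul hsA (by linarith) (by linarith) (by linarith)
    nlinarith
  · intro l hno
    have hid : ∀ ω : ℝ, Real.cos (θ x - ω) =
        Real.sin (θ3 - θ x) / Real.sin (θ3 - θ1) * Real.cos (θ1 - ω) +
        Real.sin (θ x - θ1) / Real.sin (θ3 - θ1) * Real.cos (θ3 - ω) := by
      intro ω
      rw [div_mul_eq_mul_div, div_mul_eq_mul_div, ← add_div, eq_div_iff hs13.ne']
      simp only [Real.sin_sub, Real.cos_sub]
      have e1 := Real.sin_sq_add_cos_sq (θ x)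
      have e2 := Real.sin_sq_add_cos_sq θ1
      have e3 := Real.sin_sq_add_cos_sq θ3
      ring_nf
    have hcc : ContinuousOn (fun s => Real.cos (θ s - l.arg)) (Icc (a + 2 * h) (a + 5 * h)) := by
      fun_prop
    have h25 : a + 2 * h ≤ a + 5 * h := by linarith
    have hM : 0 ≤ 2 * Real.pi * ‖l‖ := by positivity
    have hvel : ∀ t, |vel θ l t| = 2 * Real.pi * ‖l‖ * |Real.cos (θ t - l.arg)| := by
      intro t
      unfold vel
      rw [abs_mul, abs_of_nonneg hM]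
    rw [hvel, hvel, hvel, hid l.arg]
    set α' := Real.sin (θ3 - θ x) / Real.sin (θ3 - θ1) with hα'
    set β' := Real.sin (θ x - θ1) / Real.sin (θ3 - θ1) with hβ'
    have hαpos : 0 < α' := div_pos (by linarith) hs13
    have hβpos : 0 < β' := div_pos (by linarith) hs13
    have n1 := hno (a + 2 * h) ⟨le_refl _, by linarith⟩
    have n3 := hno (a + 5 * h) ⟨by linarith, by linarith⟩
    rw [← hθ1] at n1 ⊢
    rw [← hθ3] at n3 ⊢
    rcases lt_or_gt_of_ne n1 with k1 | k1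
    · have k3 : Real.cos (θ3 - l.arg) < 0 := by
        by_contra k
        push Not at k
        obtain ⟨s, hs, hse⟩ := intermediate_value_Icc h25 hcc ⟨k1.le, k⟩
        exact hno s ⟨hs.1, by linarith [hs.2]⟩ hse
      have m1 : 0 < α' * (-Real.cos (θ1 - l.arg)) := mul_pos hαpos (by linarith)
      have m3 : 0 < β' * (-Real.cos (θ3 - l.arg)) := mul_pos hβpos (by linarith)
      rw [abs_of_neg k1, abs_of_neg k3, abs_of_neg (by linarith)]
      ring
    · have k3 : 0 < Real.cos (θ3 - l.arg) := by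
        by_contra k
        push Not at k
        obtain ⟨s, hs, hse⟩ := intermediate_value_Icc' h25 hcc ⟨k, k1.le⟩
        exact hno s ⟨hs.1, by linarith [hs.2]⟩ hse
      have m1 : 0 < α' * (Real.cos (θ1 - l.arg)) := mul_pos hαpos k1
      have m3 : 0 < β' * (Real.cos (θ3 - l.arg)) := mul_pos hβpos k3
      rw [abs_of_pos k1, abs_of_pos k3, abs_of_pos (by linarith)]
      ring

end H17Arc
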